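import Mathlib

/-!
# Characters of small energy of a finite abelian group

Weights `p m ≥ 0` and elements `c m` of a finite abelian group are given. Either only few characters
have small energy `∑ p m ‖1 - χ (c m)‖ ^ 2`, or there is a small subgroup outside which the elements
`c m` have bounded total weight.
-/

namespace Pool.Agent.MP_ca1109_lc.Xw

open Finset
open scoped Pointwise

/-- The energy of a character. -/
noncomputable def En {Γ ι : Type} [AddCommGroup Γ] (M : Finset ι) (p : ι → ℝ) (c : ι → Γ)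
    (χ : AddChar Γ ℂ) : ℝ := ∑ m ∈ M, p m * ‖1 - χ (c m)‖ ^ 2

section dich

variable {Γ ι : Type} [AddCommGroup Γ] [Fintype Γ] {M : Finset ι} {p : ι → ℝ} {c : ι → Γ}

theorem en_mul (hp : ∀ m ∈ M, 0 ≤ p m) (χ ψ : AddChar Γ ℂ) :
    En M p c (χ * ψ) ≤ 2 * En M p c χ + 2 * En M p c ψ := by
  unfold En
  rw [mul_sum, mul_sum, ← sum_add_distrib]
  refine sum_le_sum fun m hm => ?_
  have h1 : ‖1 - (χ * ψ) (c m)‖ ≤ ‖1 - χ (c m)‖ + ‖1 - ψ (c m)‖ := by
    have e : 1 - (χ * ψ) (c m) = (1 - χ (c m)) + χ (c m) * (1 - ψ (c m)) := by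
      rw [AddChar.mul_apply]
      ring
    rw [e]
    refine (norm_add_le _ _).trans ?_
    rw [norm_mul, AddChar.norm_apply, one_mul]
  have h2 : ‖1 - (χ * ψ) (c m)‖ ^ 2 ≤ 2 * ‖1 - χ (c m)‖ ^ 2 + 2 * ‖1 - ψ (c m)‖ ^ 2 := by
    have h0 := norm_nonneg (1 - (χ * ψ) (c m))
    have h3 : ‖1 - (χ * ψ) (c m)‖ ^ 2 ≤ (‖1 - χ (c m)‖ + ‖1 - ψ (c m)‖) ^ 2 :=
      pow_le_pow_left₀ h0 h1 2
    nlinarith [sq_nonneg (‖1 - χ (c m)‖ - ‖1 - ψ (c m)‖)]
  have h3 := mul_le_mul_of_nonneg_left h2 (hp m hm)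
  linarith

theorem en_inv (χ : AddChar Γ ℂ) : En M p c χ⁻¹ = En M p c χ := by
  unfold En
  refine sum_congr rfl fun m _ => ?_
  have e : 1 - χ⁻¹ (c m) = -(χ (-(c m)) * (1 - χ (c m))) := by
    rw [AddChar.inv_apply]
    have h := AddChar.map_add_eq_mul χ (-(c m)) (c m)
    rw [neg_add_cancel, AddChar.map_zero_eq_one] at h
    rw [mul_sub, ← h]
    ring
  rw [e, norm_neg, norm_mul, AddChar.norm_apply, one_mul]

omit [Fintype Γ] in
theorem en_one : En M p c (1 : AddChar Γ ℂ) = 0 := by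
  unfold En
  refine sum_eq_zero fun m _ => ?_
  rw [AddChar.one_apply, sub_self, norm_zero]
  ring

theorem growth {δ N : ℝ} (hN : 0 < N) (J : ℕ) (hJ : 1 ≤ (3 / 2 : ℝ) ^ J * δ) (a : ℕ → ℝ)
    (h0 : δ * N < a 0) (hle : ∀ j, a j ≤ N) : ∃ j < J, a (j + 1) < 3 / 2 * a j := by
  by_contra hcon
  push Not at hcon
  have h1 : ∀ j ≤ J, (3 / 2 : ℝ) ^ j * a 0 ≤ a j := by
    intro j
    induction j with
    | zero => intro _; simp
    | succ j ih =>
      intro hj
      have h2 := ih (by omega)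
      have h3 := hcon j (by omega)
      calc (3 / 2 : ℝ) ^ (j + 1) * a 0 = 3 / 2 * ((3 / 2 : ℝ) ^ j * a 0) := by ring
        _ ≤ 3 / 2 * a j := by linarith
        _ ≤ a (j + 1) := h3
  have h2 := (h1 J le_rfl).trans (hle J)
  have h3 : (0 : ℝ) < (3 / 2) ^ J := by positivity
  have h4 : (3 / 2 : ℝ) ^ J * (δ * N) < (3 / 2 : ℝ) ^ J * a 0 := mul_lt_mul_of_pos_left h0 h3
  nlinarith

/-- The common kernel of the characters in `H`. -/
def perp (H : Subgroup (AddChar Γ ℂ)) : AddSubgroup Γ where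
  carrier := {γ | ∀ χ ∈ H, χ γ = 1}
  zero_mem' := fun χ _ => AddChar.map_zero_eq_one χ
  add_mem' := by
    intro a b ha hb χ hχ
    rw [AddChar.map_add_eq_mul, ha χ hχ, hb χ hχ, one_mul]
  neg_mem' := by
    intro a ha χ hχ
    have h := AddChar.map_add_eq_mul χ (-a) a
    rw [neg_add_cancel, AddChar.map_zero_eq_one, ha χ hχ, mul_one] at h
    exact h.symm

omit [Fintype Γ] in
theorem sum_perp (H : Subgroup (AddChar Γ ℂ)) [Fintype H] (γ : Γ) (hγ : γ ∉ perp H) :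
    ∑ χ : H, (χ : AddChar Γ ℂ) γ = 0 := by
  have h1 : ∃ ψ ∈ H, ψ γ ≠ 1 := by
    by_contra h
    push Not at h
    exact hγ h
  obtain ⟨ψ, hψ, hψ1⟩ := h1
  have h2 : ∑ χ : H, (χ : AddChar Γ ℂ) γ = ψ γ * ∑ χ : H, (χ : AddChar Γ ℂ) γ := by
    rw [mul_sum]
    refine (Fintype.sum_equiv (Equiv.mulLeft (⟨ψ, hψ⟩ : H)) (fun χ : H => ψ γ * (χ : AddChar Γ ℂ) γ)
      (fun χ : H => (χ : AddChar Γ ℂ) γ) fun χ => ?_).symm
    show ψ γ * (χ : AddChar Γ ℂ) γ = (ψ * (χ : AddChar Γ ℂ)) γ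
    rw [AddChar.mul_apply]
  have h3 : (ψ γ - 1) * ∑ χ : H, (χ : AddChar Γ ℂ) γ = 0 := by
    rw [sub_mul, one_mul, ← h2, sub_self]
  rcases mul_eq_zero.1 h3 with h | h
  · exact absurd (sub_eq_zero.1 h) hψ1
  · exact h

omit [Fintype Γ] in
theorem sum_perp' (H : Subgroup (AddChar Γ ℂ)) [Fintype H] (γ : Γ) (hγ : γ ∈ perp H) :
    ∑ χ : H, (χ : AddChar Γ ℂ) γ = Fintype.card H := by
  rw [sum_congr rfl fun χ _ => hγ χ.1 χ.2, sum_const, card_univ, nsmul_eq_mul, mul_one]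

/-- The order of the common kernel. -/
theorem card_perp (H : Subgroup (AddChar Γ ℂ)) [Fintype H] :
    (Fintype.card H : ℝ) * Nat.card (perp H) = Fintype.card Γ := by
  classical
  have h1 : ∑ γ : Γ, ∑ χ : H, (χ : AddChar Γ ℂ) γ = (Fintype.card Γ : ℂ) := by
    rw [sum_comm, Fintype.sum_eq_single (1 : H)]
    · show ∑ γ : Γ, (1 : AddChar Γ ℂ) γ = _
      rw [sum_congr rfl fun γ _ => AddChar.one_apply γ, sum_const, card_univ, nsmul_eq_mul, mul_one]
    · intro χ hχ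
      refine AddChar.sum_eq_zero_of_ne_one fun h => hχ ?_
      exact Subtype.ext h
  have h2 : ∑ γ : Γ, ∑ χ : H, (χ : AddChar Γ ℂ) γ =
      (Fintype.card H : ℂ) * (Nat.card (perp H) : ℂ) := by
    rw [← sum_filter_add_sum_filter_not univ (fun γ => γ ∈ perp H),
      sum_congr rfl fun γ hγ => sum_perp' H γ (mem_filter.1 hγ).2,
      sum_congr (s₂ := univ.filter fun γ => γ ∉ perp H) rfl
        fun γ hγ => sum_perp H γ (mem_filter.1 hγ).2, sum_const_zero, add_zero, sum_const,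
      nsmul_eq_mul, mul_comm]
    congr 2
    rw [Nat.card_eq_fintype_card, Fintype.card_subtype]
  rw [h1] at h2
  exact_mod_cast h2.symm

/-- The sum over the characters in `H` of the distances from one. -/
theorem sum_dist (H : Subgroup (AddChar Γ ℂ)) [Fintype H] (γ : Γ) (hγ : γ ∉ perp H) :
    ∑ χ : H, ‖1 - (χ : AddChar Γ ℂ) γ‖ ^ 2 = 2 * Fintype.card H := by
  have h1 : ∀ χ : H, ‖1 - (χ : AddChar Γ ℂ) γ‖ ^ 2 = 2 - 2 * ((χ : AddChar Γ ℂ) γ).re := by
    intro χ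
    have h2 : ‖(χ : AddChar Γ ℂ) γ‖ ^ 2 = 1 := by rw [AddChar.norm_apply, one_pow]
    rw [← Complex.normSq_eq_norm_sq] at h2 ⊢
    rw [Complex.normSq_apply] at h2 ⊢
    rw [Complex.sub_re, Complex.sub_im, Complex.one_re, Complex.one_im]
    linarith
  rw [sum_congr rfl fun χ _ => h1 χ, sum_sub_distrib, sum_const, card_univ, nsmul_eq_mul, ← mul_sum,
    ← Complex.re_sum, sum_perp H γ hγ, Complex.zero_re]
  ring

end dich

/-- Either few characters have energy at most `V`, or there is a small subgroup which contains most of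
the elements `c m`. -/
theorem grp_dich {δ : ℝ} (hδ : 0 < δ) {V : ℝ} (hV : 0 ≤ V) : ∃ K : ℝ, 0 ≤ K ∧
    ∀ {Γ ι : Type} [AddCommGroup Γ] [Fintype Γ] (M : Finset ι) (p : ι → ℝ) (c : ι → Γ),
      (∀ m ∈ M, 0 ≤ p m) →
      (Nat.card {χ : AddChar Γ ℂ // En M p c χ ≤ V} : ℝ) ≤ δ * Fintype.card Γ ∨
      ∃ (Γ₀ : AddSubgroup Γ) (N : Finset ι), N ⊆ M ∧ δ * (Nat.card Γ₀ : ℝ) ≤ 1 ∧
        (∀ m ∈ M, m ∉ N → c m ∈ Γ₀) ∧ ∑ m ∈ N, p m ≤ K := by
  classical
  obtain ⟨J, hJ⟩ : ∃ J : ℕ, 1 / δ < (3 / 2 : ℝ) ^ J := pow_unbounded_of_one_lt _ (by norm_num)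
  have hJ' : 1 ≤ (3 / 2 : ℝ) ^ J * δ := by
    rw [div_lt_iff₀ hδ] at hJ
    exact hJ.le
  refine ⟨4 ^ (J + 1) * V, by positivity, fun {Γ ι} _ _ M p c hp => ?_⟩
  by_cases hcase : (Nat.card {χ : AddChar Γ ℂ // En M p c χ ≤ V} : ℝ) ≤ δ * Fintype.card Γ
  · exact Or.inl hcase
  refine Or.inr ?_
  push Not at hcase
  obtain ⟨D, hD⟩ : ∃ D : ℕ → Finset (AddChar Γ ℂ), D = fun j =>
    univ.filter fun χ => En M p c χ ≤ 4 ^ j * V := ⟨_, rfl⟩
  have memD : ∀ j χ, χ ∈ D j ↔ En M p c χ ≤ 4 ^ j * V := by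
    intro j χ
    rw [hD]
    simp
  have hN : (0 : ℝ) < Fintype.card Γ := by exact_mod_cast Fintype.card_pos
  have h0 : δ * (Fintype.card Γ : ℝ) < (D 0).card := by
    refine hcase.trans_le (le_of_eq ?_)
    rw [Nat.card_eq_fintype_card, Fintype.card_subtype]
    congr 2
    ext χ
    rw [mem_filter, memD]
    simp
  have hle : ∀ j, ((D j).card : ℝ) ≤ Fintype.card Γ := by
    intro j
    have h1 : (D j).card ≤ Fintype.card (AddChar Γ ℂ) := card_le_univ _
    rw [AddChar.card_eq] at h1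
    exact_mod_cast h1
  obtain ⟨j, hj, hgr⟩ := growth hN J hJ' (fun j => ((D j).card : ℝ)) h0 hle
  have hsub : D j * D j ⊆ D (j + 1) := by
    intro χ hχ
    obtain ⟨a, ha, b, hb, rfl⟩ := Finset.mem_mul.1 hχ
    rw [memD] at ha hb ⊢
    refine (en_mul hp a b).trans ?_
    calc 2 * En M p c a + 2 * En M p c b ≤ 2 * (4 ^ j * V) + 2 * (4 ^ j * V) := by linarith
      _ = 4 ^ (j + 1) * V := by ring
  have hdbl : ((D j * D j).card : ℚ) < (3 / 2 : ℚ) * (D j).card := by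
    have h1 : (((D j * D j).card : ℚ) : ℝ) < (((3 / 2 : ℚ) * (D j).card : ℚ) : ℝ) := by
      push_cast
      refine lt_of_le_of_lt ?_ hgr
      exact_mod_cast card_le_card hsub
    exact_mod_cast h1
  set H : Subgroup (AddChar Γ ℂ) := invMulSubgroup (D j) hdbl with hH
  have memH : ∀ χ ∈ H, En M p c χ ≤ 4 ^ (J + 1) * V := by
    intro χ hχ
    rw [hH, ← SetLike.mem_coe, invMulSubgroup_eq_inv_mul] at hχ
    obtain ⟨a, ha, b, hb, rfl⟩ := Set.mem_mul.1 hχ
    have ha' : a⁻¹ ∈ D j := Finset.mem_inv'.1 (Finset.mem_coe.1 ha)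
    have hb' : b ∈ D j := Finset.mem_coe.1 hb
    rw [memD] at ha' hb'
    rw [en_inv] at ha'
    refine (en_mul hp a b).trans ?_
    calc 2 * En M p c a + 2 * En M p c b ≤ 2 * (4 ^ j * V) + 2 * (4 ^ j * V) := by linarith
      _ = 4 ^ (j + 1) * V := by ring
      _ ≤ 4 ^ (J + 1) * V := by
        refine mul_le_mul_of_nonneg_right ?_ hV
        exact pow_le_pow_right₀ (by norm_num) (by omega)
  have h1H : (1 : AddChar Γ ℂ) ∈ D j := by
    rw [memD, en_one]
    positivity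
  have hHsub : ∀ χ ∈ D j, χ ∈ H := by
    intro χ hχ
    rw [hH, ← SetLike.mem_coe, invMulSubgroup_eq_inv_mul]
    refine Set.mem_mul.2 ⟨1, ?_, χ, Finset.mem_coe.2 hχ, one_mul χ⟩
    rw [Finset.mem_coe, Finset.mem_inv', inv_one]
    exact h1H
  have hFin : Fintype H := Fintype.ofFinite H
  have hcardH : δ * (Fintype.card Γ : ℝ) < Fintype.card H := by
    have h1 : (D 0).card ≤ (D j).card := by
      refine card_le_card fun χ hχ => ?_
      rw [memD] at hχ ⊢
      refine hχ.trans (mul_le_mul_of_nonneg_right ?_ hV)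
      exact pow_le_pow_right₀ (by norm_num) (by omega)
    have h2 : (D j).card ≤ Fintype.card H := by
      rw [← Fintype.card_coe]
      exact Fintype.card_le_of_injective (fun χ : D j => (⟨χ.1, hHsub χ.1 χ.2⟩ : H))
        fun a b hab => Subtype.ext (congrArg (fun t : H => (t : AddChar Γ ℂ)) hab)
    have h3 : ((D 0).card : ℝ) ≤ Fintype.card H := by exact_mod_cast h1.trans h2
    linarith
  have hHpos : (0 : ℝ) < Fintype.card H := by exact_mod_cast Fintype.card_pos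
  refine ⟨perp H, M.filter fun m => c m ∉ perp H, filter_subset _ _, ?_, ?_, ?_⟩
  · have h1 := card_perp H
    have h2 : δ * (Nat.card (perp H) : ℝ) * Fintype.card H ≤ 1 * Fintype.card H := by
      calc δ * (Nat.card (perp H) : ℝ) * Fintype.card H =
          δ * ((Fintype.card H : ℝ) * Nat.card (perp H)) := by ring
        _ = δ * Fintype.card Γ := by rw [h1]
        _ ≤ 1 * Fintype.card H := by linarith
    exact le_of_mul_le_mul_right h2 hHpos
  · intro m hm hmN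
    by_contra h
    exact hmN (mem_filter.2 ⟨hm, h⟩)
  · have h1 : ∑ χ : H, En M p c (χ : AddChar Γ ℂ) ≤ Fintype.card H * (4 ^ (J + 1) * V) := by
      refine (sum_le_sum fun χ _ => memH χ.1 χ.2).trans (le_of_eq ?_)
      rw [sum_const, card_univ, nsmul_eq_mul]
    have h2 : ∑ m ∈ M.filter (fun m => c m ∉ perp H), p m * (2 * (Fintype.card H : ℝ)) ≤
        ∑ χ : H, En M p c (χ : AddChar Γ ℂ) := by
      unfold En
      rw [sum_comm]
      refine le_trans (le_of_eq (sum_congr rfl fun m hm => ?_)) (sum_le_sum_of_subset_of_nonneg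
        (f := fun m => ∑ χ : H, p m * ‖1 - (χ : AddChar Γ ℂ) (c m)‖ ^ 2) (filter_subset _ _)
        fun m hm _ => sum_nonneg fun χ _ => mul_nonneg (hp m hm) (sq_nonneg _))
      rw [← mul_sum, sum_dist H (c m) (mem_filter.1 hm).2]
    rw [← sum_mul] at h2
    have h3 := h2.trans h1
    have h4 : (∑ m ∈ M.filter (fun m => c m ∉ perp H), p m) * 2 ≤ 4 ^ (J + 1) * V := by
      refine le_of_mul_le_mul_right ?_ hHpos
      calc (∑ m ∈ M.filter (fun m => c m ∉ perp H), p m) * 2 * Fintype.card H =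
          (∑ m ∈ M.filter (fun m => c m ∉ perp H), p m) * (2 * Fintype.card H) := by ring
        _ ≤ Fintype.card H * (4 ^ (J + 1) * V) := h3
        _ = 4 ^ (J + 1) * V * Fintype.card H := by ring
    have h5 : 0 ≤ ∑ m ∈ M.filter (fun m => c m ∉ perp H), p m :=
      sum_nonneg fun m hm => hp m (mem_filter.1 hm).1
    linarith

end Pool.Agent.MP_ca1109_lc.Xw
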