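import Pool.Agent.MP_ca1109_lc.Xa.PB
import Pool.Agent.MP_ca1109_lc.Xg.SM
import Pool.Agent.MP_ca1109_lc.Xw.GD

/-!
# Questions for values in an arbitrary finite abelian group

* `FM r ε X`: the string `X` fools all products of unimodular weights of monomials in the literals
  `x i ≠ s i`, for all `s`.
* `apx_grp`: a question for a value of a sum of coefficients, in a finite abelian group of any order,
  of monomials in such literals is close to a combination of products.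
-/

namespace Pool.Agent.MP_ca1109_lc.Xw

open Finset Pool.Agent.H66 Pool.Agent.MP_ca1109_lc.Mpg Pool.Agent.MP_ca1109_lc.Agp
open Pool.Agent.MP_ca1109_lc.Dnf (Cube one one_le one_nonneg one_true one_false Term)
open Pool.Agent.MP_ca1109_lc.Xp (xo)
open Pool.Agent.MP_ca1109_lc.Xa (PB PC)
open Pool.Agent.MP_ca1109_lc.Pb (At tt)

variable {n : ℕ}

/-- The string `X` fools the products of unimodular weights of monomials in the literals
`x i ≠ s i`. -/
def FM (r : ℕ) (ε : ℝ) {Ω : Type*} [Fintype Ω] (X : Ω → Cube n) : Prop :=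
  ∀ (M : Finset (Finset (Fin n))) (ζ : Finset (Fin n) → ℂ) (s : Cube n), Xp.Rd r M →
    (∀ m ∈ M, ‖ζ m‖ = 1) →
    ‖av (fun ω => Xp.pr ζ M (xo (X ω) s)) - av (Xp.pr ζ M)‖ ≤ ε

open Classical in
/-- The sum of the coefficients of the true monomials. -/
noncomputable def vm {G : Type} [AddCommGroup G] (c : Finset (Fin n) → G)
    (M : Finset (Finset (Fin n))) (x : Cube n) : G := ∑ m ∈ M, if Xp.Tr m x then c m else 0

theorem map_vm {G : Type} [AddCommGroup G] (c : Finset (Fin n) → G) (M : Finset (Finset (Fin n)))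
    (χ : AddChar G ℂ) (x : Cube n) : χ (vm c M x) = Xp.pr (fun m => χ (c m)) M x := by
  classical
  unfold vm Xp.pr
  induction M using Finset.induction_on with
  | empty => rw [sum_empty, prod_empty, AddChar.map_zero_eq_one]
  | insert a s ha ih =>
    rw [sum_insert ha, prod_insert ha, AddChar.map_add_eq_mul, ih]
    congr 1
    split_ifs
    · rfl
    · exact AddChar.map_zero_eq_one χ

theorem xag_norm_pr {M : Finset (Finset (Fin n))} {ζ : Finset (Fin n) → ℂ}
    (hζ : ∀ m ∈ M, ‖ζ m‖ = 1) (x : Cube n) : ‖Xp.pr ζ M x‖ = 1 := by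
  unfold Xp.pr
  rw [norm_prod]
  refine prod_eq_one fun m hm => ?_
  split_ifs
  · exact hζ m hm
  · exact norm_one

theorem xag_av_le {Ω : Type*} [Fintype Ω] [Nonempty Ω] {f : Ω → ℂ} (h : ∀ ω, ‖f ω‖ ≤ 1) :
    ‖av f‖ ≤ 1 := by
  have hc : (0 : ℝ) < Fintype.card Ω := by exact_mod_cast Fintype.card_pos
  unfold av
  rw [norm_div, Complex.norm_natCast, div_le_one hc]
  refine (norm_sum_le _ _).trans ((sum_le_sum fun ω _ => h ω).trans (le_of_eq ?_))
  rw [sum_const, card_univ, nsmul_eq_mul, mul_one]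

theorem xag_expand {G : Type} [AddCommGroup G] [Fintype G] (a v : G) :
    ((one (v = a) : ℝ) : ℂ) = ∑ χ : AddChar G ℂ, χ (-a) / (Fintype.card G : ℂ) * χ v := by
  classical
  have hc : (Fintype.card G : ℂ) ≠ 0 := by exact_mod_cast Fintype.card_ne_zero
  have e : ∀ χ : AddChar G ℂ, χ (-a) / (Fintype.card G : ℂ) * χ v =
      χ (v - a) / (Fintype.card G : ℂ) := by
    intro χ
    rw [sub_eq_add_neg, AddChar.map_add_eq_mul]
    ring
  rw [sum_congr rfl fun χ _ => e χ, ← sum_div, AddChar.sum_apply_eq_ite]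
  by_cases h : v = a
  · rw [one_true h, if_pos (sub_eq_zero.2 h)]
    push_cast
    field_simp
  · rw [one_false h, if_neg (fun h' => h (sub_eq_zero.1 h'))]
    simp

/-- The case of few characters of small energy. -/
theorem xag_far {r : ℕ} {e δ V ε₀ : ℝ} {G : Type} [AddCommGroup G] [Fintype G]
    {M : Finset (Finset (Fin n))} {c : Finset (Fin n) → G} (hδ : 0 ≤ δ) (he : 0 ≤ e)
    (hM : Xp.Rd r M) (h0 : ∀ m ∈ M, m ≠ ∅)
    (hsm : ∀ ζ : Finset (Fin n) → ℂ, (∀ m ∈ M, ‖ζ m‖ = 1) →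
      V ≤ ∑ m ∈ M, ‖1 - ζ m‖ ^ 2 * (1 / 2 : ℝ) ^ m.card → ‖av (Xp.pr ζ M)‖ ≤ e)
    (hfew : (Nat.card {χ : AddChar G ℂ // En M (fun m => (1 / 2 : ℝ) ^ m.card) c χ ≤ V} : ℝ) ≤
      δ * Fintype.card G) (s : Cube n) {Ω : Type} [Fintype Ω] [Nonempty Ω] (X : Ω → Cube n)
    (hX : FM r ε₀ X) (a : G) :
    (avg fun ω => one (vm c M (xo (X ω) s) = a)) ≤ δ + e + ε₀ := by
  classical
  have hc : (0 : ℝ) < Fintype.card G := by exact_mod_cast Fintype.card_pos
  have h1 : (((avg fun ω => one (vm c M (xo (X ω) s) = a)) : ℝ) : ℂ) =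
      ∑ χ : AddChar G ℂ, χ (-a) / (Fintype.card G : ℂ) *
        av (fun ω => Xp.pr (fun m => χ (c m)) M (xo (X ω) s)) := by
    rw [Xg.xth_ofReal_avg]
    unfold av
    simp only [xag_expand, map_vm]
    rw [sum_comm, sum_div]
    refine sum_congr rfl fun χ _ => ?_
    rw [← mul_sum, mul_div_assoc]
  have h2 : ∀ χ : AddChar G ℂ, ‖av (fun ω => Xp.pr (fun m => χ (c m)) M (xo (X ω) s))‖ ≤
      (if En M (fun m => (1 / 2 : ℝ) ^ m.card) c χ ≤ V then 1 else 0) + (e + ε₀) := by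
    intro χ
    have hζ : ∀ m ∈ M, ‖χ (c m)‖ = 1 := fun m _ => AddChar.norm_apply χ (c m)
    have h3 := hX M (fun m => χ (c m)) s hM hζ
    have h4 : ‖av (Xp.pr (fun m => χ (c m)) M)‖ ≤
        (if En M (fun m => (1 / 2 : ℝ) ^ m.card) c χ ≤ V then 1 else 0) + e := by
      by_cases hE : En M (fun m => (1 / 2 : ℝ) ^ m.card) c χ ≤ V
      · rw [if_pos hE]
        have h5 : ‖av (Xp.pr (fun m => χ (c m)) M)‖ ≤ 1 :=
          xag_av_le fun x => (xag_norm_pr hζ x).le
        linarith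
      · rw [if_neg hE, zero_add]
        refine hsm _ hζ ?_
        push Not at hE
        refine hE.le.trans (le_of_eq ?_)
        unfold En
        exact sum_congr rfl fun m _ => mul_comm _ _
    calc ‖av (fun ω => Xp.pr (fun m => χ (c m)) M (xo (X ω) s))‖ =
        ‖(av (fun ω => Xp.pr (fun m => χ (c m)) M (xo (X ω) s)) -
          av (Xp.pr (fun m => χ (c m)) M)) + av (Xp.pr (fun m => χ (c m)) M)‖ := by ring_nf
      _ ≤ ε₀ + ((if En M (fun m => (1 / 2 : ℝ) ^ m.card) c χ ≤ V then 1 else 0) + e) :=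
        (norm_add_le _ _).trans (add_le_add h3 h4)
      _ = _ := by ring
  have h3 : |avg fun ω => one (vm c M (xo (X ω) s) = a)| ≤ δ + e + ε₀ := by
    rw [← Real.norm_eq_abs, ← Complex.norm_real, h1]
    refine (norm_sum_le _ _).trans ?_
    have h4 : ∀ χ ∈ (univ : Finset (AddChar G ℂ)), ‖χ (-a) / (Fintype.card G : ℂ) *
        av (fun ω => Xp.pr (fun m => χ (c m)) M (xo (X ω) s))‖ ≤
        ((if En M (fun m => (1 / 2 : ℝ) ^ m.card) c χ ≤ V then 1 else 0) + (e + ε₀)) /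
          Fintype.card G := by
      intro χ _
      rw [norm_mul, norm_div, AddChar.norm_apply, Complex.norm_natCast, one_div, div_eq_mul_inv,
        mul_comm]
      exact mul_le_mul_of_nonneg_right (h2 χ) (by positivity)
    refine (sum_le_sum h4).trans ?_
    rw [← sum_div, sum_add_distrib, sum_boole, sum_const, card_univ, AddChar.card_eq, nsmul_eq_mul,
      div_le_iff₀ hc]
    have h5 : (((univ.filter fun χ : AddChar G ℂ =>
        En M (fun m => (1 / 2 : ℝ) ^ m.card) c χ ≤ V).card : ℕ) : ℝ) ≤ δ * Fintype.card G := by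
      refine le_trans (le_of_eq ?_) hfew
      rw [Nat.card_eq_fintype_card, Fintype.card_subtype]
    calc _ ≤ δ * Fintype.card G + (Fintype.card G : ℝ) * (e + ε₀) := by linarith
      _ = _ := by ring
  exact (le_abs_self _).trans h3

/-- The case of a small subgroup which contains most of the coefficients. -/
theorem xag_near {U : Submonoid (Cube n → ℂ)} {r Q : ℕ} {K C δ : ℝ} {G : Type} [AddCommGroup G]
    {M N : Finset (Finset (Fin n))} {c : Finset (Fin n) → G} (hδ : 0 < δ) (hC : 1 / δ ≤ C)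
    (hQ : Q = (⌊1 / δ⌋₊).factorial) (hM : Xp.Rd r M) (h0 : ∀ m ∈ M, m ≠ ∅)
    (Γ₀ : AddSubgroup G) [Finite Γ₀] (hN : N ⊆ M) (hcard : δ * (Nat.card Γ₀ : ℝ) ≤ 1)
    (hΓ : ∀ m ∈ M, m ∉ N → c m ∈ Γ₀) (hK : ∑ m ∈ N, (1 / 2 : ℝ) ^ m.card ≤ K) (A : Finset G)
    (s : Cube n) : PC U r Q K 0 C (fun x => ((one (vm c M (xo x s) ∈ A) : ℝ) : ℂ)) := by
  classical
  have _i : Fintype Γ₀ := Fintype.ofFinite Γ₀
  have hcz : (Fintype.card Γ₀ : ℂ) ≠ 0 := by exact_mod_cast Fintype.card_ne_zero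
  have hcard' : ((Fintype.card Γ₀ : ℕ) : ℝ) ≤ 1 / δ := by
    rw [Nat.card_eq_fintype_card] at hcard
    rw [le_div_iff₀ hδ, mul_comm]
    exact hcard
  -- the coefficients in the small group
  obtain ⟨c₀, hc₀⟩ : ∃ c₀ : Finset (Fin n) → Γ₀, ∀ m ∈ M, m ∉ N → ((c₀ m : Γ₀) : G) = c m := by
    refine ⟨fun m => if h : c m ∈ Γ₀ then ⟨c m, h⟩ else 0, fun m hm hmN => ?_⟩
    show (((if h : c m ∈ Γ₀ then ⟨c m, h⟩ else 0 : Γ₀)) : G) = c m
    rw [dif_pos (hΓ m hm hmN)]
  have hQc : ∀ a : Γ₀, Q • a = 0 := by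
    intro a
    have h1 : Fintype.card Γ₀ ∣ Q := by
      rw [hQ]
      refine Nat.dvd_factorial Fintype.card_pos (Nat.le_floor hcard')
    obtain ⟨b, hb⟩ := h1
    rw [hb, mul_comm, mul_smul, card_nsmul_eq_zero, smul_zero]
  -- the split
  have hsplit : ∀ y : Cube n, vm c M y =
      ((vm c₀ (M \ N) y : Γ₀) : G) + ∑ j : {m // m ∈ N}, if Xp.Tr j.1 y then c j.1 else 0 := by
    intro y
    rw [Finset.sum_coe_sort N fun m => if Xp.Tr m y then c m else 0]
    unfold vm
    rw [← sum_sdiff hN]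
    congr 1
    rw [AddSubgroup.val_finsetSum]
    refine sum_congr rfl fun m hm => ?_
    have hm' := mem_sdiff.1 hm
    split_ifs
    · exact (hc₀ m hm'.1 hm'.2).symm
    · rfl
  set T : Finset (Fin n) → Term n := fun m => ⟨m, fun i => !(s i)⟩ with hT
  have hSat : ∀ (m : Finset (Fin n)) (x : Cube n), (T m).Sat x ↔ Xp.Tr m (xo x s) := by
    intro m x
    show (∀ i ∈ m, x i = !(s i)) ↔ ∀ i ∈ m, xor (x i) (s i) = true
    refine forall_congr' fun i => forall_congr' fun _ => ?_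
    cases x i <;> cases s i <;> decide
  have hTr : ∀ (m : Finset (Fin n)) (x : Cube n), Xl.Tr (T m).S (T m).a x ↔ Xp.Tr m (xo x s) :=
    fun m x => hSat m x
  set ψ : AddChar Γ₀ ℂ → Finset {m // m ∈ N} → ℂ := fun χ B =>
    (∑ a : Γ₀, χ (-a) * ((one ((a : G) + ∑ j ∈ B, c j.1 ∈ A) : ℝ) : ℂ)) / (Fintype.card Γ₀ : ℂ)
    with hψ
  have hψ1 : ∀ χ B, ‖ψ χ B‖ ≤ 1 := by
    intro χ B
    rw [hψ]
    show ‖(∑ a : Γ₀, χ (-a) * ((one ((a : G) + ∑ j ∈ B, c j.1 ∈ A) : ℝ) : ℂ)) /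
      (Fintype.card Γ₀ : ℂ)‖ ≤ 1
    have hcp : (0 : ℝ) < Fintype.card Γ₀ := by exact_mod_cast Fintype.card_pos
    rw [norm_div, Complex.norm_natCast, div_le_one hcp]
    refine (norm_sum_le _ _).trans ?_
    refine (sum_le_sum (g := fun _ => (1 : ℝ)) fun a _ => ?_).trans (le_of_eq ?_)
    · rw [norm_mul, AddChar.norm_apply, one_mul, Complex.norm_real,
        Real.norm_of_nonneg (one_nonneg _)]
      exact one_le _
    · rw [sum_const, card_univ, nsmul_eq_mul, mul_one]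
  refine ⟨AddChar Γ₀ ℂ, inferInstance, fun _ => 1,
    fun χ x => χ (vm c₀ (M \ N) (xo x s)) *
      ψ χ ((univ : Finset {m // m ∈ N}).filter fun j => (T j.1).Sat x), fun χ => ?_, ?_,
    fun x => ?_⟩
  · refine ⟨1, U.one_mem, Finset (Fin n), inferInstance, T, M \ N, fun m => χ (c₀ m),
      fun x => ψ χ ((univ : Finset {m // m ∈ N}).filter fun j => (T j.1).Sat x), ?_, ?_, ?_, ?_,
      fun x => ?_⟩
    · intro i
      exact (card_le_card (filter_subset_filter _ sdiff_subset)).trans (hM i)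
    · intro m hm
      exact h0 m (mem_sdiff.1 hm).1
    · intro m _
      rw [← AddChar.map_nsmul_eq_pow, hQc, AddChar.map_zero_eq_one]
    · refine ⟨{m // m ∈ N}, inferInstance, fun j => T j.1, fun _ => 1, univ, ψ χ,
        fun j => nonempty_iff_ne_empty.2 (h0 j.1 (hN j.2)), fun v => ?_, fun _ => norm_one, hψ1 χ, ?_,
        ?_, fun x => ?_⟩
      · refine le_trans (le_of_eq ?_) ((card_le_card (filter_subset_filter _ hN)).trans (hM v))
        rw [← card_map (Function.Embedding.subtype _)]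
        congr 1
        ext m
        simp only [mem_map, mem_filter, mem_univ, true_and, Function.Embedding.subtype_apply]
        constructor
        · rintro ⟨j, hj, rfl⟩
          exact ⟨j.2, hj⟩
        · rintro ⟨hm, hv⟩
          exact ⟨⟨m, hm⟩, hv, rfl⟩
      · refine le_of_eq (sum_eq_zero fun j _ => ?_)
        show _ * ‖(1 : ℂ) - 1‖ ^ 2 = 0
        rw [sub_self, norm_zero]
        ring
      · rw [Finset.sum_coe_sort N fun m => (1 / 2 : ℝ) ^ (T m).S.card]
        exact hK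
      · unfold tt
        simp only [ite_self, prod_const_one, mul_one]
    · show χ (vm c₀ (M \ N) (xo x s)) * _ = 1 * (Xl.pr T (fun m => χ (c₀ m)) (M \ N) x * _)
      rw [one_mul, map_vm]
      congr 1
      unfold Xp.pr Xl.pr
      refine prod_congr rfl fun m _ => ?_
      by_cases h : Xp.Tr m (xo x s)
      · rw [if_pos h, if_pos ((hTr m x).2 h)]
      · rw [if_neg h, if_neg fun h' => h ((hTr m x).1 h')]
  · simp only [norm_one, sum_const, card_univ, AddChar.card_eq, nsmul_eq_mul, mul_one]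
    exact hcard'.trans hC
  · show ((one (vm c M (xo x s) ∈ A) : ℝ) : ℂ) = ∑ χ : AddChar Γ₀ ℂ, 1 *
      (χ (vm c₀ (M \ N) (xo x s)) *
        ψ χ ((univ : Finset {m // m ∈ N}).filter fun j => (T j.1).Sat x))
    obtain ⟨v, hv⟩ : ∃ v : Γ₀, v = vm c₀ (M \ N) (xo x s) := ⟨_, rfl⟩
    obtain ⟨w, hw⟩ : ∃ w : G, w = ∑ j ∈ (univ : Finset {m // m ∈ N}).filter
      (fun j => (T j.1).Sat x), c j.1 := ⟨_, rfl⟩
    have e1 : vm c M (xo x s) = (v : G) + w := by
      rw [hsplit, hv, hw, sum_filter]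
      congr 1
      refine sum_congr rfl fun j _ => ?_
      by_cases h : Xp.Tr j.1 (xo x s)
      · rw [if_pos h, if_pos ((hSat j.1 x).2 h)]
      · rw [if_neg h, if_neg fun h' => h ((hSat j.1 x).1 h')]
    rw [e1, ← hv, hψ]
    simp only [one_mul]
    rw [← hw]
    have e2 : ∀ χ : AddChar Γ₀ ℂ, χ v * ((∑ a : Γ₀, χ (-a) *
        ((one ((a : G) + w ∈ A) : ℝ) : ℂ)) / (Fintype.card Γ₀ : ℂ)) =
        ∑ a : Γ₀, ((one ((a : G) + w ∈ A) : ℝ) : ℂ) *
          (χ (-a) / (Fintype.card Γ₀ : ℂ) * χ v) := by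
      intro χ
      rw [sum_div, mul_sum]
      refine sum_congr rfl fun a _ => ?_
      ring
    rw [sum_congr rfl fun χ _ => e2 χ, sum_comm]
    have e3 : ∀ a : Γ₀, ∑ χ : AddChar Γ₀ ℂ, ((one ((a : G) + w ∈ A) : ℝ) : ℂ) *
        (χ (-a) / (Fintype.card Γ₀ : ℂ) * χ v) =
        ((one ((a : G) + w ∈ A) : ℝ) : ℂ) * ((one (v = a) : ℝ) : ℂ) := by
      intro a
      rw [← mul_sum, ← xag_expand]
    rw [sum_congr rfl fun a _ => e3 a, Fintype.sum_eq_single v]
    · rw [one_true rfl]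
      push_cast
      ring
    · intro a ha
      rw [one_false (Ne.symm ha)]
      push_cast
      ring

/-- Questions for values in a finite abelian group of any order are approximable. -/
theorem apx_grp (r B : ℕ) {ε₁ : ℝ} (h1 : 0 < ε₁) : ∃ (Q : ℕ) (K C ε₀ : ℝ), 0 < Q ∧ 0 ≤ K ∧
    0 ≤ C ∧ 0 < ε₀ ∧ ∀ (n : ℕ) (U : Submonoid (Cube n → ℂ)) (G : Type) [AddCommGroup G]
      [Fintype G] (M : Finset (Finset (Fin n))) (c : Finset (Fin n) → G) (A : Finset G)
      (s : Cube n), Xp.Rd r M → (∀ m ∈ M, m ≠ ∅) → A.card ≤ B →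
      ∀ g : Cube n → Bool, (∀ x, g x = true ↔ vm c M (xo x s) ∈ A) →
        ∃ f : Cube n → ℂ, (∀ x, ‖f x‖ ≤ 2) ∧ PC U r Q K 0 C f ∧
          ∀ {Ω : Type} [Fintype Ω] [Nonempty Ω] (X : Ω → Cube n), FM r ε₀ X →
            (avg fun ω => ‖((ind (g (X ω)) : ℝ) : ℂ) - f (X ω)‖) ≤ ε₁ := by
  classical
  obtain ⟨δ, hδ⟩ : ∃ δ : ℝ, δ = ε₁ / (3 * ((B : ℝ) + 1)) := ⟨_, rfl⟩
  have hδ0 : 0 < δ := by rw [hδ]; positivity
  obtain ⟨V₀, hV₀⟩ := Xg.small_av r hδ0
  obtain ⟨K, hK0, hK⟩ := grp_dich hδ0 (le_max_right V₀ 0)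
  refine ⟨(⌊1 / δ⌋₊).factorial, K, 1 / δ, δ, Nat.factorial_pos _, hK0, by positivity, hδ0,
    fun n U G _ _ M c A s hM h0 hA g hg => ?_⟩
  have hind : ∀ x, ind (g x) = one (vm c M (xo x s) ∈ A) := by
    intro x
    by_cases h : vm c M (xo x s) ∈ A
    · rw [one_true h, (hg x).2 h]
      rfl
    · rw [one_false h]
      have : g x = false := by
        cases hgx : g x
        · rfl
        · exact absurd ((hg x).1 hgx) h
      rw [this]
      rfl
  rcases hK M (fun m => (1 / 2 : ℝ) ^ m.card) c (fun m _ => by positivity) with h | h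
  · refine ⟨fun _ => 0, fun x => by simp, ?_, fun {Ω} _ _ X hX => ?_⟩
    · refine (Xa.PC.const (n := n) (U := U) r _ hK0 le_rfl (0 : ℂ)).mono le_rfl dvd_rfl le_rfl
        le_rfl ?_
      rw [norm_zero]
      positivity
    · have hfar := fun a : G => xag_far hδ0.le hδ0.le hM h0
        (fun ζ hζ hm => hV₀ n M ζ hM h0 hζ ((le_max_left _ _).trans hm)) h s X hX a
      have e : (avg fun ω => ‖((ind (g (X ω)) : ℝ) : ℂ) - 0‖) =
          ∑ a ∈ A, avg fun ω => one (vm c M (xo (X ω) s) = a) := by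
        unfold avg
        rw [← sum_div, sum_comm]
        congr 1
        refine sum_congr rfl fun ω _ => ?_
        show ‖((ind (g (X ω)) : ℝ) : ℂ) - 0‖ = ∑ a ∈ A, one (vm c M (xo (X ω) s) = a)
        rw [sub_zero, Complex.norm_real, Real.norm_of_nonneg (ind_nonneg _), hind]
        by_cases h : vm c M (xo (X ω) s) ∈ A
        · rw [one_true h, sum_eq_single (vm c M (xo (X ω) s))]
          · exact (one_true rfl).symm
          · intro a _ ha
            exact one_false (Ne.symm ha)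
          · intro h'
            exact absurd h h'
        · rw [one_false h]
          refine (sum_eq_zero fun a ha => one_false fun h' => h ?_).symm
          rw [h']
          exact ha
      rw [e]
      refine (sum_le_sum fun a _ => hfar a).trans ?_
      rw [sum_const, nsmul_eq_mul]
      have hA' : (A.card : ℝ) ≤ B := by exact_mod_cast hA
      have h3 : δ + δ + δ = ε₁ / ((B : ℝ) + 1) := by
        rw [hδ]
        field_simp
        ring
      rw [h3]
      calc (A.card : ℝ) * (ε₁ / ((B : ℝ) + 1)) ≤ ((B : ℝ) + 1) * (ε₁ / ((B : ℝ) + 1)) :=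
            mul_le_mul_of_nonneg_right (by linarith) (by positivity)
        _ = ε₁ := by field_simp
  · obtain ⟨Γ₀, N, hN, hcard, hΓ, hmass⟩ := h
    refine ⟨fun x => ((one (vm c M (xo x s) ∈ A) : ℝ) : ℂ), fun x => ?_,
      xag_near hδ0 le_rfl rfl hM h0 Γ₀ hN hcard hΓ hmass A s, fun {Ω} _ _ X _ => ?_⟩
    · rw [Complex.norm_real, Real.norm_of_nonneg (one_nonneg _)]
      linarith [one_le (vm c M (xo x s) ∈ A)]
    · have e : (fun ω => ‖((ind (g (X ω)) : ℝ) : ℂ) - ((one (vm c M (xo (X ω) s) ∈ A) : ℝ) : ℂ)‖) =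
          fun _ => 0 := by
        funext ω
        rw [hind, sub_self, norm_zero]
      rw [e, avg_const]
      exact h1.le

end Pool.Agent.MP_ca1109_lc.Xw
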