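import Pool.Agent.MP_ca1109_lc.Xw.GD

/-!
# Characters of small energy of a finite abelian group: linear dependence on the energy
-/

namespace Pool.Agent.MP_ca1109_lc.Xw

open Finset
open scoped Pointwise

/-- Either few characters have energy at most `V`, or there is a small subgroup which contains most of
the elements `c m`. -/
theorem grp_dich2 {δ : ℝ} (hδ : 0 < δ) : ∃ κ : ℝ, 0 ≤ κ ∧ ∀ (V : ℝ), 0 ≤ V →
    ∀ {Γ ι : Type} [AddCommGroup Γ] [Fintype Γ] (M : Finset ι) (p : ι → ℝ) (c : ι → Γ),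
      (∀ m ∈ M, 0 ≤ p m) →
      (Nat.card {χ : AddChar Γ ℂ // En M p c χ ≤ V} : ℝ) ≤ δ * Fintype.card Γ ∨
      ∃ (Γ₀ : AddSubgroup Γ) (N : Finset ι), N ⊆ M ∧ δ * (Nat.card Γ₀ : ℝ) ≤ 1 ∧
        (∀ m ∈ M, m ∉ N → c m ∈ Γ₀) ∧ ∑ m ∈ N, p m ≤ κ * V := by
  classical
  obtain ⟨J, hJ⟩ : ∃ J : ℕ, 1 / δ < (3 / 2 : ℝ) ^ J := pow_unbounded_of_one_lt _ (by norm_num)
  have hJ' : 1 ≤ (3 / 2 : ℝ) ^ J * δ := by
    rw [div_lt_iff₀ hδ] at hJ
    exact hJ.le
  refine ⟨4 ^ (J + 1), by positivity, fun V hV {Γ ι} _ _ M p c hp => ?_⟩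
  by_cases hcase : (Nat.card {χ : AddChar Γ ℂ // En M p c χ ≤ V} : ℝ) ≤ δ * Fintype.card Γ
  · exact Or.inl hcase
  refine Or.inr ?_
  push Not at hcase
  obtain ⟨D, hD⟩ : ∃ D : ℕ → Finset (AddChar Γ ℂ), D = fun j =>
    univ.filter fun χ => En M p c χ ≤ 4 ^ j * V := ⟨_, rfl⟩
  have memD : ∀ j χ, χ ∈ D j ↔ En M p c χ ≤ 4 ^ j * V := by
    intro j χ
    rw [hD]
    simp
  have hN : (0 : ℝ) < Fintype.card Γ := by exact_mod_cast Fintype.card_pos
  have h0 : δ * (Fintype.card Γ : ℝ) < (D 0).card := by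
    refine hcase.trans_le (le_of_eq ?_)
    rw [Nat.card_eq_fintype_card, Fintype.card_subtype]
    congr 2
    ext χ
    rw [mem_filter, memD]
    simp
  have hle : ∀ j, ((D j).card : ℝ) ≤ Fintype.card Γ := by
    intro j
    have h1 : (D j).card ≤ Fintype.card (AddChar Γ ℂ) := card_le_univ _
    rw [AddChar.card_eq] at h1
    exact_mod_cast h1
  obtain ⟨j, hj, hgr⟩ := growth hN J hJ' (fun j => ((D j).card : ℝ)) h0 hle
  have hsub : D j * D j ⊆ D (j + 1) := by
    intro χ hχ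
    obtain ⟨a, ha, b, hb, rfl⟩ := Finset.mem_mul.1 hχ
    rw [memD] at ha hb ⊢
    refine (en_mul hp a b).trans ?_
    calc 2 * En M p c a + 2 * En M p c b ≤ 2 * (4 ^ j * V) + 2 * (4 ^ j * V) := by linarith
      _ = 4 ^ (j + 1) * V := by ring
  have hdbl : ((D j * D j).card : ℚ) < (3 / 2 : ℚ) * (D j).card := by
    have h1 : (((D j * D j).card : ℚ) : ℝ) < (((3 / 2 : ℚ) * (D j).card : ℚ) : ℝ) := by
      push_cast
      refine lt_of_le_of_lt ?_ hgr
      exact_mod_cast card_le_card hsub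
    exact_mod_cast h1
  set H : Subgroup (AddChar Γ ℂ) := invMulSubgroup (D j) hdbl with hH
  have memH : ∀ χ ∈ H, En M p c χ ≤ 4 ^ (J + 1) * V := by
    intro χ hχ
    rw [hH, ← SetLike.mem_coe, invMulSubgroup_eq_inv_mul] at hχ
    obtain ⟨a, ha, b, hb, rfl⟩ := Set.mem_mul.1 hχ
    have ha' : a⁻¹ ∈ D j := Finset.mem_inv'.1 (Finset.mem_coe.1 ha)
    have hb' : b ∈ D j := Finset.mem_coe.1 hb
    rw [memD] at ha' hb'
    rw [en_inv] at ha'
    refine (en_mul hp a b).trans ?_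
    calc 2 * En M p c a + 2 * En M p c b ≤ 2 * (4 ^ j * V) + 2 * (4 ^ j * V) := by linarith
      _ = 4 ^ (j + 1) * V := by ring
      _ ≤ 4 ^ (J + 1) * V := by
        refine mul_le_mul_of_nonneg_right ?_ hV
        exact pow_le_pow_right₀ (by norm_num) (by omega)
  have h1H : (1 : AddChar Γ ℂ) ∈ D j := by
    rw [memD, en_one]
    positivity
  have hHsub : ∀ χ ∈ D j, χ ∈ H := by
    intro χ hχ
    rw [hH, ← SetLike.mem_coe, invMulSubgroup_eq_inv_mul]
    refine Set.mem_mul.2 ⟨1, ?_, χ, Finset.mem_coe.2 hχ, one_mul χ⟩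
    rw [Finset.mem_coe, Finset.mem_inv', inv_one]
    exact h1H
  have hFin : Fintype H := Fintype.ofFinite H
  have hcardH : δ * (Fintype.card Γ : ℝ) < Fintype.card H := by
    have h1 : (D 0).card ≤ (D j).card := by
      refine card_le_card fun χ hχ => ?_
      rw [memD] at hχ ⊢
      refine hχ.trans (mul_le_mul_of_nonneg_right ?_ hV)
      exact pow_le_pow_right₀ (by norm_num) (by omega)
    have h2 : (D j).card ≤ Fintype.card H := by
      rw [← Fintype.card_coe]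
      exact Fintype.card_le_of_injective (fun χ : D j => (⟨χ.1, hHsub χ.1 χ.2⟩ : H))
        fun a b hab => Subtype.ext (congrArg (fun t : H => (t : AddChar Γ ℂ)) hab)
    have h3 : ((D 0).card : ℝ) ≤ Fintype.card H := by exact_mod_cast h1.trans h2
    linarith
  have hHpos : (0 : ℝ) < Fintype.card H := by exact_mod_cast Fintype.card_pos
  refine ⟨perp H, M.filter fun m => c m ∉ perp H, filter_subset _ _, ?_, ?_, ?_⟩
  · have h1 := card_perp H
    have h2 : δ * (Nat.card (perp H) : ℝ) * Fintype.card H ≤ 1 * Fintype.card H := by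
      calc δ * (Nat.card (perp H) : ℝ) * Fintype.card H =
          δ * ((Fintype.card H : ℝ) * Nat.card (perp H)) := by ring
        _ = δ * Fintype.card Γ := by rw [h1]
        _ ≤ 1 * Fintype.card H := by linarith
    exact le_of_mul_le_mul_right h2 hHpos
  · intro m hm hmN
    by_contra h
    exact hmN (mem_filter.2 ⟨hm, h⟩)
  · have h1 : ∑ χ : H, En M p c (χ : AddChar Γ ℂ) ≤ Fintype.card H * (4 ^ (J + 1) * V) := by
      refine (sum_le_sum fun χ _ => memH χ.1 χ.2).trans (le_of_eq ?_)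
      rw [sum_const, card_univ, nsmul_eq_mul]
    have h2 : ∑ m ∈ M.filter (fun m => c m ∉ perp H), p m * (2 * (Fintype.card H : ℝ)) ≤
        ∑ χ : H, En M p c (χ : AddChar Γ ℂ) := by
      unfold En
      rw [sum_comm]
      refine le_trans (le_of_eq (sum_congr rfl fun m hm => ?_)) (sum_le_sum_of_subset_of_nonneg
        (f := fun m => ∑ χ : H, p m * ‖1 - (χ : AddChar Γ ℂ) (c m)‖ ^ 2) (filter_subset _ _)
        fun m hm _ => sum_nonneg fun χ _ => mul_nonneg (hp m hm) (sq_nonneg _))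
      rw [← mul_sum, sum_dist H (c m) (mem_filter.1 hm).2]
    rw [← sum_mul] at h2
    have h3 := h2.trans h1
    have h4 : (∑ m ∈ M.filter (fun m => c m ∉ perp H), p m) * 2 ≤ 4 ^ (J + 1) * V := by
      refine le_of_mul_le_mul_right ?_ hHpos
      calc (∑ m ∈ M.filter (fun m => c m ∉ perp H), p m) * 2 * Fintype.card H =
          (∑ m ∈ M.filter (fun m => c m ∉ perp H), p m) * (2 * Fintype.card H) := by ring
        _ ≤ Fintype.card H * (4 ^ (J + 1) * V) := h3
        _ = 4 ^ (J + 1) * V * Fintype.card H := by ring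
    have h5 : 0 ≤ ∑ m ∈ M.filter (fun m => c m ∉ perp H), p m :=
      sum_nonneg fun m hm => hp m (mem_filter.1 hm).1
    linarith

end Pool.Agent.MP_ca1109_lc.Xw
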