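import Pool.Agent.MP_ca1109_lc.Xv.FU

/-!
# Shifts
-/

namespace Pool.Agent.MP_ca1109_lc.Xw

open Finset Pool.Agent.H66 Pool.Agent.MP_ca1109_lc.Mpg Pool.Agent.MP_ca1109_lc.Agp
open Pool.Agent.MP_ca1109_lc.Dnf (Cube one one_le one_nonneg one_true one_false Term)
open Pool.Agent.MP_ca1109_lc.Xp (xo)
open Pool.Agent.MP_ca1109_lc.Xl (Rd)
open Pool.Agent.MP_ca1109_lc.Xa (PB PC FP Gt fp_eventually fp_avg_fin)
open Pool.Agent.MP_ca1109_lc.Pb (At tt)
open Pool.Agent.MP_ca1109_lc.Xv (vio fv_gen fv_gate ysh ysh_tr)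

variable {n : ℕ}

/-! ## Shifts -/

theorem xfa_av_comm {A B : Type*} [Fintype A] [Fintype B] (F : A → B → ℂ) :
    av (fun a => av fun b => F a b) = av fun b => av fun a => F a b := by
  unfold av
  rw [← sum_div, ← sum_div, div_div, div_div, sum_comm, mul_comm]

theorem xfa_av_le {A : Type*} [Fintype A] [Nonempty A] {F : A → ℂ} {z : ℂ} {ε : ℝ}
    (h : ∀ a, ‖F a - z‖ ≤ ε) : ‖av F - z‖ ≤ ε := by
  have hc : (0 : ℝ) < Fintype.card A := by exact_mod_cast Fintype.card_pos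
  have hc' : (Fintype.card A : ℂ) ≠ 0 := by exact_mod_cast Fintype.card_ne_zero
  have e : av F - z = (∑ a, (F a - z)) / (Fintype.card A : ℂ) := by
    unfold av
    rw [sum_sub_distrib, sum_const, card_univ, nsmul_eq_mul, sub_div, mul_div_cancel_left₀ _ hc']
  rw [e, norm_div, Complex.norm_natCast, div_le_iff₀ hc]
  refine (norm_sum_le _ _).trans ((sum_le_sum fun a _ => h a).trans (le_of_eq ?_))
  rw [sum_const, card_univ, nsmul_eq_mul, mul_comm]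

theorem xfa_pr {ι : Type*} (T : ι → Term n) (ζ : ι → ℂ) (M : Finset ι) (s x : Cube n) :
    Xl.pr T ζ M (xo x s) = Xl.pr (fun m => ysh (T m) s) ζ M x := by
  classical
  unfold Xl.pr
  refine prod_congr rfl fun m _ => ?_
  by_cases h : Xl.Tr (T m).S (T m).a (xo x s)
  · rw [if_pos h, if_pos ((ysh_tr (T m) s x).2 h)]
  · rw [if_neg h, if_neg fun h' => h ((ysh_tr (T m) s x).1 h')]

theorem At.xo {r : ℕ} {K V : ℝ} {g : Cube n → ℂ} (h : At r K V g) (s : Cube n) :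
    At r K V (fun x => g (Xp.xo x s)) := by
  classical
  obtain ⟨κ, i2, T, z, J, ψ, k1, k2, k3, k4, k5, k6, k7⟩ := h
  refine ⟨κ, i2, fun j => ysh (T j) s, z, J, ψ, k1, k2, k3, k4, k5, k6, fun x => ?_⟩
  show g (Xp.xo x s) = _
  rw [k7]
  have h1 : ∀ j, (T j).Sat (Xp.xo x s) ↔ (ysh (T j) s).Sat x := fun j => (ysh_tr (T j) s x).symm
  unfold tt
  simp only [h1]

theorem PB.xo {U : Submonoid (Cube n → ℂ)} {r q : ℕ} {K V : ℝ} {f : Cube n → ℂ}
    (hU : ∀ u ∈ U, ∀ s : Cube n, (fun x => u (Xp.xo x s)) ∈ U) (h : PB U r q K V f) (s : Cube n) :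
    PB U r q K V (fun x => f (Xp.xo x s)) := by
  obtain ⟨u, hu, ι, i1, T, M, ζ, g, h1, h2, h3, h4, h5⟩ := h
  refine ⟨fun x => u (Xp.xo x s), hU u hu s, ι, i1, fun m => ysh (T m) s, M, ζ,
    fun x => g (Xp.xo x s), h1, h2, h3, At.xo h4 s, fun x => ?_⟩
  show f (Xp.xo x s) = u (Xp.xo x s) * (Xl.pr (fun m => ysh (T m) s) ζ M x * g (Xp.xo x s))
  rw [h5, xfa_pr]

theorem vio_xo (a d : ℕ) (u : Cube n → ℂ) (hu : u ∈ vio a d n) (s : Cube n) :
    (fun x => u (Xp.xo x s)) ∈ vio a d n := by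
  obtain ⟨A, hA, rfl⟩ := hu
  exact ⟨fun x => A (Xp.xo x s), lowDeg_comp (fun i z => xor z (s i)) hA, rfl⟩

end Pool.Agent.MP_ca1109_lc.Xw
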