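import Pool.Agent.MP_ca1109_lc.Xd.FQ
import Pool.Agent.MP_ca1109_lc.Xw.FA0

/-!
# Sums of generators at the leaves, conditional strings
-/

namespace Pool.Agent.MP_ca1109_lc.Xw

open Finset Pool.Agent.H66 Pool.Agent.MP_ca1109_lc.Mpg Pool.Agent.MP_ca1109_lc.Agp
open Pool.Agent.MP_ca1109_lc.Dnf (Cube one Term)
open Pool.Agent.MP_ca1109_lc.Xp (xo ma_norm_av ma_av_const)
open Pool.Agent.MP_ca1109_lc.Xl (Tr)
open Pool.Agent.MP_ca1109_lc.Xa (PB FP Gt)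
open Pool.Agent.MP_ca1109_lc.Xv (vio)
open Pool.Agent.MP_ca1109_lc.Xd (lf Lf LFooled gl_lf_xo cond)

variable {n : ℕ}

/-! ## The sum of independent strings at the leaves -/

/-- The class is closed under shifts. -/
def Sc (𝒯 : Set (Cube n → ℂ)) : Prop := ∀ f ∈ 𝒯, ∀ s : Cube n, (fun x => f (xo x s)) ∈ 𝒯

theorem fw_left {𝒯 : Set (Cube n → ℂ)} (h𝒯 : Sc 𝒯) {k : ℕ} {ε : ℝ} {Ω₁ Ω₂ : Type*} [Fintype Ω₁]
    [Fintype Ω₂] [Nonempty Ω₂] {X : Ω₁ → Cube n} (Y : Ω₂ → Cube n) (hX : Lf 𝒯 k ε X)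
    (L : Finset (Fin n)) (a : Cube n) (hL : L.card ≤ k * Nat.clog 2 n) {f : Cube n → ℂ}
    (hf : f ∈ 𝒯) :
    ‖(av fun ω₁ => av fun ω₂ => lf L a f (xo (X ω₁) (Y ω₂))) - (1 / 2) ^ L.card * av f‖ ≤
      ε * (1 / 2) ^ L.card := by
  rw [xfa_av_comm]
  refine xfa_av_le fun ω₂ => ?_
  have h1 := hX L (xo a (Y ω₂)) hL _ (h𝒯 f hf (Y ω₂))
  rw [Xp.av_xo] at h1
  simp only [gl_lf_xo]
  exact h1

theorem fw_comm (x y : Cube n) : xo x y = xo y x := by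
  funext i
  exact Bool.xor_comm _ _

theorem fw_right {𝒯 : Set (Cube n → ℂ)} (h𝒯 : Sc 𝒯) {k : ℕ} {ε : ℝ} {Ω₁ Ω₂ : Type*} [Fintype Ω₁]
    [Nonempty Ω₁] [Fintype Ω₂] (X : Ω₁ → Cube n) {Y : Ω₂ → Cube n} (hY : Lf 𝒯 k ε Y)
    (L : Finset (Fin n)) (a : Cube n) (hL : L.card ≤ k * Nat.clog 2 n) {f : Cube n → ℂ}
    (hf : f ∈ 𝒯) :
    ‖(av fun ω₁ => av fun ω₂ => lf L a f (xo (X ω₁) (Y ω₂))) - (1 / 2) ^ L.card * av f‖ ≤
      ε * (1 / 2) ^ L.card := by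
  refine xfa_av_le fun ω₁ => ?_
  have h1 := hY L (xo a (X ω₁)) hL _ (h𝒯 f hf (X ω₁))
  rw [Xp.av_xo] at h1
  have e : ∀ ω₂, lf L a f (xo (X ω₁) (Y ω₂)) =
      lf L (xo a (X ω₁)) (fun z => f (xo z (X ω₁))) (Y ω₂) := by
    intro ω₂
    rw [fw_comm, gl_lf_xo]
  simp only [e]
  exact h1

/-- The sum of two generators fools both classes at the leaves. -/
theorem fw_union {𝒯₁ 𝒯₂ : ∀ n : ℕ, Set ((Fin n → Bool) → ℂ)} (s₁ : ∀ n, Sc (𝒯₁ n))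
    (s₂ : ∀ n, Sc (𝒯₂ n)) {k : ℕ} {ε : ℝ} (h₁ : LFooled 𝒯₁ k ε) (h₂ : LFooled 𝒯₂ k ε) :
    LFooled (fun n => 𝒯₁ n ∪ 𝒯₂ n) k ε := by
  obtain ⟨E₁, G₁, g₁, n₁, H₁⟩ := h₁
  obtain ⟨E₂, G₂, g₂, n₂, H₂⟩ := h₂
  refine ⟨_, _, g₁.xor g₂, max n₁ n₂, fun n hn L a hL f hf => ?_⟩
  have hn1 : n₁ ≤ n := (le_max_left _ _).trans hn
  have hn2 : n₂ ≤ n := (le_max_right _ _).trans hn
  have hN1 : Nonempty (Fin (2 ^ E₁ n)) := ⟨⟨0, by positivity⟩⟩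
  have hN2 : Nonempty (Fin (2 ^ E₂ n)) := ⟨⟨0, by positivity⟩⟩
  have hB : 0 < 2 ^ E₂ n := by positivity
  have key : ∀ f : Cube n → ℂ, av (fun p : Fin (2 ^ (E₁ n + E₂ n)) =>
      f (out (xorG E₂ G₁ G₂) n p)) = av fun p₁ : Fin (2 ^ E₁ n) => av fun p₂ : Fin (2 ^ E₂ n) =>
        f (xo (out G₁ n p₁) (out G₂ n p₂)) := by
    intro f
    rw [av_fin (2 ^ (E₁ n + E₂ n)) fun p => f (out (xorG E₂ G₁ G₂) n p), pow_add]
    have h6 : na (2 ^ E₁ n * 2 ^ E₂ n) (fun p => f (out (xorG E₂ G₁ G₂) n p)) =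
        na (2 ^ E₁ n) (fun p => na (2 ^ E₂ n) fun p' =>
          f (xo (out G₁ n p) (out G₂ n p'))) := by
      rw [← na_mul (2 ^ E₁ n) hB fun p p' => f (xo (out G₁ n p) (out G₂ n p'))]
      exact na_congr fun p _ => rfl
    rw [h6, ← av_fin]
    congr 1
    funext p
    exact (av_fin (2 ^ E₂ n) fun p' => f (xo (out G₁ n p) (out G₂ n p'))).symm
  have e := key (lf L a f)
  rw [show (av fun ω : Fin (2 ^ (E₁ n + E₂ n)) => lf L a f (out (xorG E₂ G₁ G₂) n ω)) = _ from e]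
  rcases hf with hf | hf
  · exact fw_left (s₁ n) (fun p : Fin (2 ^ E₂ n) => out G₂ n p) (H₁ n hn1) L a hL hf
  · exact fw_right (s₂ n) (fun p : Fin (2 ^ E₁ n) => out G₁ n p) (H₂ n hn2) L a hL hf

theorem fw_xo3 (x s t : Cube n) : xo (xo x t) s = xo x (xo t s) := by
  funext i
  exact Bool.xor_assoc _ _ _

theorem sc_pb (a d r q : ℕ) (K V : ℝ) (n : ℕ) : Sc {f | PB (vio a d n) r q K V f} :=
  fun _ hf s => PB.xo (vio_xo a d) hf s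

theorem sc_union {𝒯₁ 𝒯₂ : Set (Cube n → ℂ)} (h₁ : Sc 𝒯₁) (h₂ : Sc 𝒯₂) : Sc (𝒯₁ ∪ 𝒯₂) := by
  rintro f (hf | hf) s
  · exact Or.inl (h₁ f hf s)
  · exact Or.inr (h₂ f hf s)

/-! ## The conditional strings -/

/-- The conditional strings fool the class. -/
theorem fw_cond {𝒯 : Set (Cube n → ℂ)} {k : ℕ} {ε : ℝ} (h1𝒯 : (fun _ => 1) ∈ 𝒯)
    (hε : 0 ≤ ε) (hε1 : ε ≤ 1 / 2) {Ω : Type} [Fintype Ω] [Nonempty Ω] {X : Ω → Cube n}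
    (hX : Lf 𝒯 k ε X) (hf : ∀ f ∈ 𝒯, ∀ x, ‖f x‖ ≤ 1)
    (L : Finset (Fin n)) (hL : L.card ≤ k * Nat.clog 2 n) (t : Cube n) :
    |(avg fun ω => one (Tr L t (X ω))) - (1 / 2) ^ L.card| ≤ ε * (1 / 2) ^ L.card ∧
    ∃ (Ω' : Type) (_ : Fintype Ω') (_ : Nonempty Ω') (X' : Ω' → Cube n),
      (∀ f ∈ 𝒯, ‖av (fun ω' => f (X' ω')) - av f‖ ≤ 4 * ε) ∧
      ∀ f : Cube n → ℂ, av (fun ω => lf L t f (X ω)) =
        ((avg fun ω => one (Tr L t (X ω)) : ℝ) : ℂ) * av fun ω' => f (X' ω') := by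
  obtain ⟨P, hP⟩ : ∃ P : ℝ, P = avg fun ω => one (Tr L t (X ω)) := ⟨_, rfl⟩
  obtain ⟨D, hD⟩ : ∃ D : ℝ, D = (1 / 2) ^ L.card := ⟨_, rfl⟩
  have hD0 : 0 < D := by rw [hD]; positivity
  have hDc : ((1 / 2 : ℂ)) ^ L.card = ((D : ℝ) : ℂ) := by
    rw [hD]
    push_cast
    ring
  have h1 : (av fun ω => lf L t (fun _ => 1) (X ω)) = ((P : ℝ) : ℂ) := by
    have h2 : ∀ x : Cube n, lf L t (fun _ => 1) x = ((one (Tr L t x) : ℝ) : ℂ) := by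
      intro x
      unfold lf
      rw [ma_av_const, mul_one]
    simp only [h2]
    rw [hP]
    unfold av avg
    push_cast
    rfl
  have h2 := hX L t hL (fun _ => 1) h1𝒯
  rw [h1, ma_av_const, mul_one, hDc, ← hD, ← Complex.ofReal_sub, Complex.norm_real,
    Real.norm_eq_abs] at h2
  have h3 : D / 2 ≤ P := by
    have h4 := (abs_le.1 h2).1
    nlinarith
  have h4 : 0 < P := by linarith
  obtain ⟨Ω', i1, i2, X', hX'⟩ := cond X L t (by rw [← hP]; exact h4)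
  rw [← hP] at hX' ⊢
  rw [← hD]
  refine ⟨h2, Ω', i1, i2, X', fun f hfp => ?_, hX'⟩
  have h5 := hX L t hL f hfp
  rw [hX', hDc, ← hD] at h5
  have h6 : ‖av f‖ ≤ 1 := ma_norm_av fun x => hf f hfp x
  have h7 : ‖((P : ℝ) : ℂ) * (av (fun ω' => f (X' ω')) - av f)‖ ≤ 2 * ε * D := by
    have h8 : ((P : ℝ) : ℂ) * (av (fun ω' => f (X' ω')) - av f) =
        (((P : ℝ) : ℂ) * av (fun ω' => f (X' ω')) - ((D : ℝ) : ℂ) * av f) +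
          (((D - P : ℝ)) : ℂ) * av f := by
      push_cast
      ring
    rw [h8]
    refine (norm_add_le _ _).trans ?_
    have h9 : ‖(((D - P : ℝ)) : ℂ) * av f‖ ≤ ε * D := by
      rw [norm_mul, Complex.norm_real, Real.norm_eq_abs, abs_sub_comm]
      calc |P - D| * ‖av f‖ ≤ |P - D| * 1 := mul_le_mul_of_nonneg_left h6 (abs_nonneg _)
        _ ≤ ε * D := by rw [mul_one]; exact h2
    linarith
  rw [norm_mul, Complex.norm_real, Real.norm_eq_abs, abs_of_pos h4] at h7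
  by_contra hlt
  rw [not_le] at hlt
  have h10 : D / 2 * (4 * ε) < P * ‖av (fun ω' => f (X' ω')) - av f‖ := by
    calc D / 2 * (4 * ε) ≤ P * (4 * ε) := mul_le_mul_of_nonneg_right h3 (by positivity)
      _ < P * ‖av (fun ω' => f (X' ω')) - av f‖ := mul_lt_mul_of_pos_left hlt h4
  linarith

end Pool.Agent.MP_ca1109_lc.Xw
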