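import Pool.Agent.MP_ca1109_lc.Xa.FP
import Pool.Agent.MP_ca1109_lc.Xw.AG

/-!
# Strings and functions of gates

* `Ga r B g`: `g` is a question for a value in a finite abelian group of any order, over monomials in
  the literals given by one string.
* `str_ga`: every string which fools the products fools the Boolean functions of `k` gates.
-/

namespace Pool.Agent.MP_ca1109_lc.Xw

open Finset Pool.Agent.H66 Pool.Agent.MP_ca1109_lc.Mpg Pool.Agent.MP_ca1109_lc.Agp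
open Pool.Agent.MP_ca1109_lc.Dnf (Cube one one_le one_nonneg one_true one_false Term)
open Pool.Agent.MP_ca1109_lc.Xp (xo)
open Pool.Agent.MP_ca1109_lc.Xa (PB PC FP Gt apx_gt xpb_bool)

variable {n : ℕ}

/-- A question for a value in a finite abelian group of any order, over monomials in the literals
`x i ≠ s i`. -/
def Ga (r B : ℕ) (g : Cube n → Bool) : Prop :=
  ∃ (G : Type) (_ : AddCommGroup G) (_ : Fintype G) (M : Finset (Finset (Fin n)))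
    (c : Finset (Fin n) → G) (A : Finset G) (s : Cube n), Xp.Rd r M ∧ (∀ m ∈ M, m ≠ ∅) ∧
    A.card ≤ B ∧ ∀ x, g x = true ↔ vm c M (xo x s) ∈ A

theorem FM.mono {r r' : ℕ} {ε ε' : ℝ} (hr : r ≤ r') (hε : ε' ≤ ε) {Ω : Type*} [Fintype Ω]
    {X : Ω → Cube n} (h : FM r' ε' X) : FM r ε X :=
  fun M ζ s hM hζ => (h M ζ s (fun i => (hM i).trans hr) hζ).trans hε

theorem FM.id (r : ℕ) {ε : ℝ} (hε : 0 ≤ ε) : FM r ε (fun x : Cube n => x) := by
  intro M ζ s _ _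
  rw [Xp.av_xo, sub_self, norm_zero]
  exact hε

/-- All gates are approximable. -/
theorem apx_ga (r q B : ℕ) (hq : 0 < q) {ε₁ : ℝ} (h1 : 0 < ε₁) :
    ∃ (Q : ℕ) (K V C ε₀ : ℝ), 0 < Q ∧ 0 ≤ K ∧ 0 ≤ V ∧ 0 ≤ C ∧ 0 < ε₀ ∧
      ∀ (n : ℕ) (U : Submonoid (Cube n → ℂ)) (g : Cube n → Bool), Gt U r q B g ∨ Ga r B g →
        ∃ G : Cube n → ℂ, (∀ x, ‖G x‖ ≤ 2) ∧ PC U r Q K V C G ∧
          ∀ {Ω : Type} [Fintype Ω] [Nonempty Ω] (X : Ω → Cube n), FP U r Q K V ε₀ X →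
            FM r ε₀ X → (avg fun ω => ‖((ind (g (X ω)) : ℝ) : ℂ) - G (X ω)‖) ≤ ε₁ := by
  obtain ⟨Q, K, V, C, ε₀, hQ, hK, hV, hC, hε₀, H⟩ := apx_gt r q B hq h1
  obtain ⟨Q', K', C', ε₀', hQ', hK', hC', hε₀', H'⟩ := apx_grp r B h1
  refine ⟨Q * Q', K + K', V, C + C', min ε₀ ε₀', Nat.mul_pos hQ hQ', by positivity, hV,
    by positivity, lt_min hε₀ hε₀', fun n U g hg => ?_⟩
  rcases hg with hg | ⟨G, i1, i2, M, c, A, s, hM, h0, hA, hgx⟩
  · obtain ⟨f, h2, h3, h4⟩ := H n U g hg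
    refine ⟨f, h2, h3.mono le_rfl (dvd_mul_right Q Q') (by linarith) le_rfl (by linarith),
      fun {Ω} _ _ X hX _ => h4 X (hX.mono le_rfl (dvd_mul_right Q Q') (by linarith) le_rfl
        (min_le_left _ _))⟩
  · obtain ⟨f, h2, h3, h4⟩ := H' n U G M c A s hM h0 hA g hgx
    refine ⟨f, h2, h3.mono le_rfl (dvd_mul_left Q' Q) (by linarith) hV (by linarith),
      fun {Ω} _ _ X _ hX => h4 X (hX.mono le_rfl (min_le_right _ _))⟩

/-- Every string which fools the products fools the Boolean functions of `k` gates. -/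
theorem str_ga (r q B k : ℕ) (hq : 0 < q) {ε : ℝ} (hε : 0 < ε) : ∃ (R Q : ℕ) (K V ε₀ : ℝ),
    0 < Q ∧ 0 ≤ K ∧ 0 ≤ V ∧ 0 < ε₀ ∧ ∀ (n : ℕ) (U : Submonoid (Cube n → ℂ))
      (g : Fin k → Cube n → Bool) (F : (Fin k → Bool) → Bool),
      (∀ j, Gt U r q B (g j) ∨ Ga r B (g j)) →
      ∀ {Ω : Type} [Fintype Ω] [Nonempty Ω] (X : Ω → Cube n), FP U R Q K V ε₀ X → FM R ε₀ X →
        |(avg fun ω => ind (F fun j => g j (X ω))) - avg fun x : Cube n => ind (F fun j => g j x)| ≤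
          ε := by
  classical
  obtain ⟨Q, K, V, C, ε₀, hQ, hK, hV, hC, hε₀, hg⟩ := apx_ga r q B hq
    (ε₁ := ε / (4 * (2 ^ k * (3 ^ k * ((k : ℝ) + 1))))) (by positivity)
  obtain ⟨ε₂, hε₂⟩ : ∃ ε₂ : ℝ, ε₂ = min ε₀ (ε / (2 * (2 ^ k * (1 + C) ^ k))) := ⟨_, rfl⟩
  have hε₂0 : 0 < ε₂ := by rw [hε₂]; exact lt_min hε₀ (by positivity)
  have hε₂1 : ε₂ ≤ ε₀ := by rw [hε₂]; exact min_le_left _ _
  have hε₂2 : ε₂ ≤ ε / (2 * (2 ^ k * (1 + C) ^ k)) := by rw [hε₂]; exact min_le_right _ _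
  have hkK : 0 ≤ (k : ℝ) * K := by positivity
  have hkV : 0 ≤ (k : ℝ) * V := by positivity
  refine ⟨k * r + r, Q, k * K + K, k * V + V, ε₂, hQ, by linarith, by linarith, hε₂0,
    fun n U g F hgate {Ω} _ _ X hX hXM => ?_⟩
  choose Gj h01 hPC happ using fun j => hg n U (g j) (hgate j)
  have key := xpb_bool (ε₁ := ε / (4 * (2 ^ k * (3 ^ k * ((k : ℝ) + 1))))) hε₂0.le hK hV hC
    F g Gj h01 hPC (hX.mono (Nat.le_add_right _ _) dvd_rfl (by linarith) (by linarith) le_rfl)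
    (fun j => happ j (fun x : Cube n => x) (FP.id _ _ _ _ hε₀.le) (FM.id _ hε₀.le))
    (fun j => happ j _ (hX.mono (Nat.le_add_left _ _) dvd_rfl (by linarith) (by linarith) hε₂1)
      (hXM.mono (Nat.le_add_left _ _) hε₂1))
  refine key.trans ?_
  have e3 : 2 * (2 ^ k * (3 ^ k * ((k : ℝ) * (ε / (4 * (2 ^ k * (3 ^ k * ((k : ℝ) + 1)))))))) ≤
      ε / 2 := by
    rw [show 2 * (2 ^ k * (3 ^ k * ((k : ℝ) * (ε / (4 * (2 ^ k * (3 ^ k * ((k : ℝ) + 1)))))))) =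
      ε / 2 * ((k : ℝ) / ((k : ℝ) + 1)) by field_simp; ring]
    have : (k : ℝ) / ((k : ℝ) + 1) ≤ 1 := by
      rw [div_le_one (by positivity)]
      linarith
    nlinarith
  have e4 : 2 ^ k * (1 + C) ^ k * ε₂ ≤ ε / 2 := by
    calc 2 ^ k * (1 + C) ^ k * ε₂ ≤ 2 ^ k * (1 + C) ^ k * (ε / (2 * (2 ^ k * (1 + C) ^ k))) :=
          mul_le_mul_of_nonneg_left hε₂2 (by positivity)
      _ = ε / 2 := by field_simp
  linarith

end Pool.Agent.MP_ca1109_lc.Xw
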