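import Pool.Agent.MP_ca1109_lc.Xd.WD
import Pool.Agent.MP_ca1109_lc.Xw.SA
import Pool.Agent.MP_ca1109_lc.Xw.GD2

/-!
# Questions for values in an arbitrary finite abelian group, at the leaves

* `FM2 r Q C C' ε X`: the string `X` fools the products in `Big r C n` and in `Mix r Q C' n`.
* `apx_grp3`: a question for a value of a sum of coefficients, in a finite abelian group of any order,
  of monomials in the literals given by one string is close to a combination of products.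
* `str_g3`: every string which fools the products fools the Boolean functions of `k` gates.
-/

namespace Pool.Agent.MP_ca1109_lc.Xw

open Finset Pool.Agent.H66 Pool.Agent.MP_ca1109_lc.Mpg Pool.Agent.MP_ca1109_lc.Agp
open Pool.Agent.MP_ca1109_lc.Dnf (Cube one one_le one_nonneg one_true one_false Term)
open Pool.Agent.MP_ca1109_lc.Xp (xo)
open Pool.Agent.MP_ca1109_lc.Xa (PB PC FP Gt apx_gt xpb_bool)
open Pool.Agent.MP_ca1109_lc.Xd (Big Mix)

variable {n : ℕ}

/-- The string `X` fools the products in `Big r C n` and in `Mix r Q C' n` with error at most `ε`. -/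
def FM2 (r Q : ℕ) (C C' ε : ℝ) {Ω : Type*} [Fintype Ω] (X : Ω → Cube n) : Prop :=
  ∀ f : Cube n → ℂ, f ∈ Big r C n ∨ f ∈ Mix r Q C' n → ‖av (fun ω => f (X ω)) - av f‖ ≤ ε

theorem FM2.mono {r r' Q Q' : ℕ} {C C' ε ε' : ℝ} (hr : r ≤ r') (hQ : Q ∣ Q') (hε : ε' ≤ ε)
    {Ω : Type*} [Fintype Ω] {X : Ω → Cube n} (h : FM2 r' Q' C C' ε' X) : FM2 r Q C C' ε X := by
  intro f hf
  refine (h f ?_).trans hε
  rcases hf with ⟨M, ζ, s, h1, h2, h3, h4, h5⟩ | ⟨M, N, ζ, s, h1, h2, h3, h4, h5, h6, h7⟩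
  · exact Or.inl ⟨M, ζ, s, fun i => (h1 i).trans hr, h2, h3, h4, h5⟩
  · refine Or.inr ⟨M, N, ζ, s, fun i => (h1 i).trans hr, h2, h3, h4, fun m hm hmN => ?_, h6, h7⟩
    obtain ⟨b, rfl⟩ := hQ
    rw [pow_mul, h5 m hm hmN, one_pow]

theorem FM2.id (r Q : ℕ) (C C' : ℝ) {ε : ℝ} (hε : 0 ≤ ε) :
    FM2 r Q C C' ε (fun x : Cube n => x) := by
  intro f _
  rw [show (av fun ω : Cube n => f ω) = av f from rfl, sub_self, norm_zero]
  exact hε

/-- Questions when the averages of almost all characters are small. -/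
theorem xag_far3 {e δ : ℝ} {G : Type} [AddCommGroup G] [Fintype G]
    {M : Finset (Finset (Fin n))} {c : Finset (Fin n) → G} (s : Cube n) (he : 0 ≤ e)
    {Ω : Type} [Fintype Ω] [Nonempty Ω] (X : Ω → Cube n) (bad : AddChar G ℂ → Prop)
    (hbig : ∀ χ : AddChar G ℂ, ¬ bad χ →
      ‖av (fun ω => Xp.pr (fun m => χ (c m)) M (xo (X ω) s))‖ ≤ e)
    (hfew : (Nat.card {χ : AddChar G ℂ // bad χ} : ℝ) ≤ δ * Fintype.card G) (a : G) :
    (avg fun ω => one (vm c M (xo (X ω) s) = a)) ≤ δ + e := by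
  classical
  have hc : (0 : ℝ) < Fintype.card G := by exact_mod_cast Fintype.card_pos
  have h1 : (((avg fun ω => one (vm c M (xo (X ω) s) = a)) : ℝ) : ℂ) =
      ∑ χ : AddChar G ℂ, χ (-a) / (Fintype.card G : ℂ) *
        av (fun ω => Xp.pr (fun m => χ (c m)) M (xo (X ω) s)) := by
    rw [Xg.xth_ofReal_avg]
    unfold av
    simp only [xag_expand, map_vm]
    rw [sum_comm, sum_div]
    refine sum_congr rfl fun χ _ => ?_
    rw [← mul_sum, mul_div_assoc]
  have h2 : ∀ χ : AddChar G ℂ, ‖av (fun ω => Xp.pr (fun m => χ (c m)) M (xo (X ω) s))‖ ≤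
      (if bad χ then 1 else 0) + e := by
    intro χ
    have hζ : ∀ m ∈ M, ‖χ (c m)‖ = 1 := fun m _ => AddChar.norm_apply χ (c m)
    by_cases hE : bad χ
    · rw [if_pos hE]
      have h5 : ‖av (fun ω => Xp.pr (fun m => χ (c m)) M (xo (X ω) s))‖ ≤ 1 :=
        xag_av_le fun ω => (xag_norm_pr hζ _).le
      linarith
    · rw [if_neg hE, zero_add]
      exact hbig χ hE
  have h3 : |avg fun ω => one (vm c M (xo (X ω) s) = a)| ≤ δ + e := by
    rw [← Real.norm_eq_abs, ← Complex.norm_real, h1]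
    refine (norm_sum_le _ _).trans ?_
    have h4 : ∀ χ ∈ (univ : Finset (AddChar G ℂ)), ‖χ (-a) / (Fintype.card G : ℂ) *
        av (fun ω => Xp.pr (fun m => χ (c m)) M (xo (X ω) s))‖ ≤
        ((if bad χ then 1 else 0) + e) / Fintype.card G := by
      intro χ _
      rw [norm_mul, norm_div, AddChar.norm_apply, Complex.norm_natCast, one_div, div_eq_mul_inv,
        mul_comm]
      exact mul_le_mul_of_nonneg_right (h2 χ) (by positivity)
    refine (sum_le_sum h4).trans ?_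
    rw [← sum_div, sum_add_distrib, sum_boole, sum_const, card_univ, AddChar.card_eq, nsmul_eq_mul,
      div_le_iff₀ hc]
    have h5 : (((univ.filter fun χ : AddChar G ℂ => bad χ).card : ℕ) : ℝ) ≤
        δ * Fintype.card G := by
      refine le_trans (le_of_eq ?_) hfew
      rw [Nat.card_eq_fintype_card, Fintype.card_subtype]
    calc _ ≤ δ * Fintype.card G + (Fintype.card G : ℝ) * e := by linarith
      _ = _ := by ring
  exact (le_abs_self _).trans h3

theorem xag_or {G : Type} [AddCommGroup G] [Fintype G] {δ : ℝ} {P P' : AddChar G ℂ → Prop}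
    (h : (Nat.card {χ : AddChar G ℂ // P χ} : ℝ) ≤ δ * Fintype.card G)
    (h' : (Nat.card {χ : AddChar G ℂ // P' χ} : ℝ) ≤ δ * Fintype.card G) :
    (Nat.card {χ : AddChar G ℂ // P χ ∨ P' χ} : ℝ) ≤ (2 * δ) * Fintype.card G := by
  classical
  rw [Nat.card_eq_fintype_card, Fintype.card_subtype] at h h' ⊢
  rw [filter_or]
  have h1 : (((univ.filter fun χ : AddChar G ℂ => P χ) ∪
      (univ.filter fun χ : AddChar G ℂ => P' χ)).card : ℝ) ≤
      ((univ.filter fun χ : AddChar G ℂ => P χ).card : ℝ) +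
        ((univ.filter fun χ : AddChar G ℂ => P' χ).card : ℝ) := by
    exact_mod_cast card_union_le _ _
  linarith

/-- Questions for values in a finite abelian group of any order are approximable. -/
theorem apx_grp3 (r B : ℕ) {ε₁ : ℝ} (h1 : 0 < ε₁) : ∃ (Q : ℕ) (K C₀ κ ε₀ : ℝ), 0 < Q ∧ 0 ≤ K ∧
    0 ≤ C₀ ∧ 0 ≤ κ ∧ 0 < ε₀ ∧ ∀ (C : ℝ), 0 ≤ C → ∀ (n : ℕ) (U : Submonoid (Cube n → ℂ))
      (G : Type) [AddCommGroup G] [Fintype G] (M : Finset (Finset (Fin n)))
      (c : Finset (Fin n) → G) (A : Finset G) (s : Cube n), Xp.Rd r M → (∀ m ∈ M, m ≠ ∅) →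
      A.card ≤ B → ∀ g : Cube n → Bool, (∀ x, g x = true ↔ vm c M (xo x s) ∈ A) →
        ∃ f : Cube n → ℂ, (∀ x, ‖f x‖ ≤ 2) ∧ PC U r Q K 0 C₀ f ∧
          ∀ {Ω : Type} [Fintype Ω] [Nonempty Ω] (X : Ω → Cube n), FM2 r Q C (κ * C) ε₀ X →
            (avg fun ω => ‖((ind (g (X ω)) : ℝ) : ℂ) - f (X ω)‖) ≤ ε₁ := by
  classical
  obtain ⟨δ, hδ⟩ : ∃ δ : ℝ, δ = ε₁ / (4 * ((B : ℝ) + 1)) := ⟨_, rfl⟩
  have hδ0 : 0 < δ := by rw [hδ]; positivity
  obtain ⟨V₀, hV₀⟩ := Xg.small_av r hδ0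
  obtain ⟨K, hK0, hK⟩ := grp_dich hδ0 (le_max_right V₀ 0)
  obtain ⟨κ, hκ0, hκ⟩ := grp_dich2 hδ0
  refine ⟨(⌊1 / δ⌋₊).factorial, K, 1 / δ, κ, δ, Nat.factorial_pos _, hK0, by positivity, hκ0, hδ0,
    fun C hC n U G _ _ M c A s hM h0 hA g hg => ?_⟩
  have hind : ∀ x, ind (g x) = one (vm c M (xo x s) ∈ A) := by
    intro x
    by_cases h : vm c M (xo x s) ∈ A
    · rw [one_true h, (hg x).2 h]
      rfl
    · rw [one_false h]
      have : g x = false := by
        cases hgx : g x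
        · rfl
        · exact absurd ((hg x).1 hgx) h
      rw [this]
      rfl
  rcases hK M (fun m => (1 / 2 : ℝ) ^ m.card) c (fun m _ => by positivity) with h | h
  · refine ⟨fun _ => 0, fun x => by simp, ?_, fun {Ω} _ _ X hX => ?_⟩
    · refine (Xa.PC.const (n := n) (U := U) r _ hK0 le_rfl (0 : ℂ)).mono le_rfl dvd_rfl le_rfl
        le_rfl ?_
      rw [norm_zero]
      positivity
    · -- almost all characters have small average
      have hsm : ∀ χ : AddChar G ℂ,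
          ¬ En M (fun m => (1 / 2 : ℝ) ^ m.card) c χ ≤ max V₀ 0 →
          ‖av (fun ω => Xp.pr (fun m => χ (c m)) M (xo (X ω) s)) -
            av (Xp.pr (fun m => χ (c m)) M)‖ ≤ δ →
          ‖av (fun ω => Xp.pr (fun m => χ (c m)) M (xo (X ω) s))‖ ≤ δ + δ := by
        intro χ hE h3
        have hζ : ∀ m ∈ M, ‖χ (c m)‖ = 1 := fun m _ => AddChar.norm_apply χ (c m)
        have h4 : ‖av (Xp.pr (fun m => χ (c m)) M)‖ ≤ δ := by
          refine hV₀ n M _ hM h0 hζ ((le_max_left V₀ 0).trans ?_)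
          push Not at hE
          refine hE.le.trans (le_of_eq ?_)
          unfold En
          exact sum_congr rfl fun m _ => mul_comm _ _
        calc ‖av (fun ω => Xp.pr (fun m => χ (c m)) M (xo (X ω) s))‖ =
            ‖(av (fun ω => Xp.pr (fun m => χ (c m)) M (xo (X ω) s)) -
              av (Xp.pr (fun m => χ (c m)) M)) + av (Xp.pr (fun m => χ (c m)) M)‖ := by
              ring_nf
          _ ≤ δ + δ := (norm_add_le _ _).trans (add_le_add h3 h4)
      have hfar : ∀ b : G, (avg fun ω => one (vm c M (xo (X ω) s) = b)) ≤ 2 * δ + (δ + δ) := by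
        intro b
        have hV2 : (0 : ℝ) ≤ C * ((Nat.clog 2 n : ℝ) + 1) := by positivity
        rcases hκ (C * ((Nat.clog 2 n : ℝ) + 1)) hV2 M
          (fun m => (m.card : ℝ) * (1 / 2 : ℝ) ^ m.card) c (fun m _ => by positivity) with h' | h'
        · refine xag_far3 s (by positivity) X _ (fun χ hχ => ?_) (xag_or h h') b
          rw [not_or] at hχ
          refine hsm χ hχ.1 ?_
          have h5 := hX (fun x => Xp.pr (fun m => χ (c m)) M (xo x s)) (Or.inl ⟨M,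
            fun m => χ (c m), s, hM, h0, fun m _ => AddChar.norm_apply χ (c m), ?_, rfl⟩)
          · rwa [Xp.av_xo] at h5
          · have h6 := hχ.2
            push Not at h6
            refine h6.le.trans (le_of_eq ?_)
            unfold En
            rfl
        · obtain ⟨Γ₀, N, hN, hcard, hΓ, hmass⟩ := h'
          refine xag_far3 s (by positivity) X _ (fun χ hχ => hsm χ hχ ?_)
            (h.trans (mul_le_mul_of_nonneg_right (by linarith) (Nat.cast_nonneg _))) b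
          have h5 := hX (fun x => Xp.pr (fun m => χ (c m)) M (xo x s)) (Or.inr ⟨M, N,
            fun m => χ (c m), s, hM, h0, hN, fun m _ => AddChar.norm_apply χ (c m), ?_, ?_, rfl⟩)
          · rwa [Xp.av_xo] at h5
          · intro m hm hmN
            have _i : Fintype Γ₀ := Fintype.ofFinite Γ₀
            have hcard' : ((Fintype.card Γ₀ : ℕ) : ℝ) ≤ 1 / δ := by
              rw [Nat.card_eq_fintype_card] at hcard
              rw [le_div_iff₀ hδ0, mul_comm]
              exact hcard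
            have h7 : Fintype.card Γ₀ ∣ (⌊1 / δ⌋₊).factorial :=
              Nat.dvd_factorial Fintype.card_pos (Nat.le_floor hcard')
            obtain ⟨b', hb'⟩ := h7
            have h8 : Fintype.card Γ₀ • (⟨c m, hΓ m hm hmN⟩ : Γ₀) = 0 := card_nsmul_eq_zero
            have h9 : Fintype.card Γ₀ • c m = 0 := congrArg Subtype.val h8
            rw [← AddChar.map_nsmul_eq_pow, hb', mul_comm, mul_smul, h9, smul_zero,
              AddChar.map_zero_eq_one]
          · rw [mul_assoc]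
            exact hmass
      have e : (avg fun ω => ‖((ind (g (X ω)) : ℝ) : ℂ) - 0‖) =
          ∑ b ∈ A, avg fun ω => one (vm c M (xo (X ω) s) = b) := by
        unfold avg
        rw [← sum_div, sum_comm]
        congr 1
        refine sum_congr rfl fun ω _ => ?_
        show ‖((ind (g (X ω)) : ℝ) : ℂ) - 0‖ = ∑ b ∈ A, one (vm c M (xo (X ω) s) = b)
        rw [sub_zero, Complex.norm_real, Real.norm_of_nonneg (ind_nonneg _), hind]
        by_cases h : vm c M (xo (X ω) s) ∈ A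
        · rw [one_true h, sum_eq_single (vm c M (xo (X ω) s))]
          · exact (one_true rfl).symm
          · intro b _ hb
            exact one_false (Ne.symm hb)
          · intro h'
            exact absurd h h'
        · rw [one_false h]
          refine (sum_eq_zero fun b hb => one_false fun h' => h ?_).symm
          rw [h']
          exact hb
      rw [e]
      refine (sum_le_sum fun b _ => hfar b).trans ?_
      rw [sum_const, nsmul_eq_mul]
      have hA' : (A.card : ℝ) ≤ B := by exact_mod_cast hA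
      have h3 : 2 * δ + (δ + δ) = ε₁ / ((B : ℝ) + 1) := by
        rw [hδ]
        field_simp
        ring
      rw [h3]
      calc (A.card : ℝ) * (ε₁ / ((B : ℝ) + 1)) ≤ ((B : ℝ) + 1) * (ε₁ / ((B : ℝ) + 1)) :=
            mul_le_mul_of_nonneg_right (by linarith) (by positivity)
        _ = ε₁ := by field_simp
  · obtain ⟨Γ₀, N, hN, hcard, hΓ, hmass⟩ := h
    refine ⟨fun x => ((one (vm c M (xo x s) ∈ A) : ℝ) : ℂ), fun x => ?_,
      xag_near hδ0 le_rfl rfl hM h0 Γ₀ hN hcard hΓ hmass A s, fun {Ω} _ _ X _ => ?_⟩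
    · rw [Complex.norm_real, Real.norm_of_nonneg (one_nonneg _)]
      linarith [one_le (vm c M (xo x s) ∈ A)]
    · have e : (fun ω => ‖((ind (g (X ω)) : ℝ) : ℂ) - ((one (vm c M (xo (X ω) s) ∈ A) : ℝ) : ℂ)‖) =
          fun _ => 0 := by
        funext ω
        rw [hind, sub_self, norm_zero]
      rw [e, avg_const]
      exact h1.le

/-- All gates are approximable. -/
theorem apx_ga3 (r q B : ℕ) (hq : 0 < q) {ε₁ : ℝ} (h1 : 0 < ε₁) :
    ∃ (Q : ℕ) (K V C₀ κ ε₀ : ℝ), 0 < Q ∧ 0 ≤ K ∧ 0 ≤ V ∧ 0 ≤ C₀ ∧ 0 ≤ κ ∧ 0 < ε₀ ∧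
      ∀ (C : ℝ), 0 ≤ C → ∀ (n : ℕ) (U : Submonoid (Cube n → ℂ)) (g : Cube n → Bool),
        Gt U r q B g ∨ Ga r B g →
        ∃ G : Cube n → ℂ, (∀ x, ‖G x‖ ≤ 2) ∧ PC U r Q K V C₀ G ∧
          ∀ {Ω : Type} [Fintype Ω] [Nonempty Ω] (X : Ω → Cube n), FP U r Q K V ε₀ X →
            FM2 r Q C (κ * C) ε₀ X →
            (avg fun ω => ‖((ind (g (X ω)) : ℝ) : ℂ) - G (X ω)‖) ≤ ε₁ := by
  obtain ⟨Q, K, V, C₀, ε₀, hQ, hK, hV, hC₀, hε₀, H⟩ := apx_gt r q B hq h1
  obtain ⟨Q', K', C₀', κ, ε₀', hQ', hK', hC₀', hκ, hε₀', H'⟩ := apx_grp3 r B h1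
  refine ⟨Q * Q', K + K', V, C₀ + C₀', κ, min ε₀ ε₀', Nat.mul_pos hQ hQ', by positivity, hV,
    by positivity, hκ, lt_min hε₀ hε₀', fun C hC n U g hg => ?_⟩
  rcases hg with hg | ⟨G, i1, i2, M, c, A, s, hM, h0, hA, hgx⟩
  · obtain ⟨f, h2, h3, h4⟩ := H n U g hg
    refine ⟨f, h2, h3.mono le_rfl (dvd_mul_right Q Q') (by linarith) le_rfl (by linarith),
      fun {Ω} _ _ X hX _ => h4 X (hX.mono le_rfl (dvd_mul_right Q Q') (by linarith) le_rfl
        (min_le_left _ _))⟩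
  · obtain ⟨f, h2, h3, h4⟩ := H' C hC n U G M c A s hM h0 hA g hgx
    refine ⟨f, h2, h3.mono le_rfl (dvd_mul_left Q' Q) (by linarith) hV (by linarith),
      fun {Ω} _ _ X _ hX => h4 X (hX.mono le_rfl (dvd_mul_left Q' Q) (min_le_right _ _))⟩

/-- Every string which fools the products fools the Boolean functions of `k` gates. -/
theorem str_g3 (r q B k : ℕ) (hq : 0 < q) {ε : ℝ} (hε : 0 < ε) :
    ∃ (R Q : ℕ) (K V κ ε₀ : ℝ), 0 < Q ∧ 0 ≤ K ∧ 0 ≤ V ∧ 0 ≤ κ ∧ 0 < ε₀ ∧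
      ∀ (C : ℝ), 0 ≤ C → ∀ (n : ℕ) (U : Submonoid (Cube n → ℂ))
        (g : Fin k → Cube n → Bool) (F : (Fin k → Bool) → Bool),
      (∀ j, Gt U r q B (g j) ∨ Ga r B (g j)) →
      ∀ {Ω : Type} [Fintype Ω] [Nonempty Ω] (X : Ω → Cube n), FP U R Q K V ε₀ X →
        FM2 R Q C (κ * C) ε₀ X →
        |(avg fun ω => ind (F fun j => g j (X ω))) - avg fun x : Cube n => ind (F fun j => g j x)| ≤
          ε := by
  classical
  obtain ⟨Q, K, V, C₀, κ, ε₀, hQ, hK, hV, hC₀, hκ, hε₀, hg⟩ := apx_ga3 r q B hq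
    (ε₁ := ε / (4 * (2 ^ k * (3 ^ k * ((k : ℝ) + 1))))) (by positivity)
  obtain ⟨ε₂, hε₂⟩ : ∃ ε₂ : ℝ, ε₂ = min ε₀ (ε / (2 * (2 ^ k * (1 + C₀) ^ k))) := ⟨_, rfl⟩
  have hε₂0 : 0 < ε₂ := by rw [hε₂]; exact lt_min hε₀ (by positivity)
  have hε₂1 : ε₂ ≤ ε₀ := by rw [hε₂]; exact min_le_left _ _
  have hε₂2 : ε₂ ≤ ε / (2 * (2 ^ k * (1 + C₀) ^ k)) := by rw [hε₂]; exact min_le_right _ _
  have hkK : 0 ≤ (k : ℝ) * K := by positivity
  have hkV : 0 ≤ (k : ℝ) * V := by positivity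
  refine ⟨k * r + r, Q, k * K + K, k * V + V, κ, ε₂, hQ, by linarith, by linarith, hκ, hε₂0,
    fun C hC n U g F hgate {Ω} _ _ X hX hXM => ?_⟩
  choose Gj h01 hPC happ using fun j => hg C hC n U (g j) (hgate j)
  have key := xpb_bool (ε₁ := ε / (4 * (2 ^ k * (3 ^ k * ((k : ℝ) + 1))))) hε₂0.le hK hV hC₀
    F g Gj h01 hPC (hX.mono (Nat.le_add_right _ _) dvd_rfl (by linarith) (by linarith) le_rfl)
    (fun j => happ j (fun x : Cube n => x) (FP.id _ _ _ _ hε₀.le) (FM2.id _ _ _ _ hε₀.le))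
    (fun j => happ j _ (hX.mono (Nat.le_add_left _ _) dvd_rfl (by linarith) (by linarith) hε₂1)
      (hXM.mono (Nat.le_add_left _ _) dvd_rfl hε₂1))
  refine key.trans ?_
  have e3 : 2 * (2 ^ k * (3 ^ k * ((k : ℝ) * (ε / (4 * (2 ^ k * (3 ^ k * ((k : ℝ) + 1)))))))) ≤
      ε / 2 := by
    rw [show 2 * (2 ^ k * (3 ^ k * ((k : ℝ) * (ε / (4 * (2 ^ k * (3 ^ k * ((k : ℝ) + 1)))))))) =
      ε / 2 * ((k : ℝ) / ((k : ℝ) + 1)) by field_simp; ring]
    have : (k : ℝ) / ((k : ℝ) + 1) ≤ 1 := by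
      rw [div_le_one (by positivity)]
      linarith
    nlinarith
  have e4 : 2 ^ k * (1 + C₀) ^ k * ε₂ ≤ ε / 2 := by
    calc 2 ^ k * (1 + C₀) ^ k * ε₂ ≤ 2 ^ k * (1 + C₀) ^ k * (ε / (2 * (2 ^ k * (1 + C₀) ^ k))) :=
          mul_le_mul_of_nonneg_left hε₂2 (by positivity)
      _ = ε / 2 := by field_simp
  linarith

end Pool.Agent.MP_ca1109_lc.Xw
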