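import Pool.Agent.MP_ca1109_lc.Xg.MA

/-!
# The generator fools all products of unimodular weights: monomials in the literals `x i = s i`
-/

namespace Pool.Agent.MP_ca1109_lc.Xw

open Finset Pool.Agent.H66 Pool.Agent.MP_ca1109_lc.Mpg Pool.Agent.MP_ca1109_lc.Agp
open Pool.Agent.MP_ca1109_lc.Xp Pool.Agent.MP_ca1109_lc.Xg
open Pool.Agent.MP_ca1109_lc.Dnf (Cube ch one E mix)

variable {n : ℕ}

theorem gs_gq {L c : ℕ} (y s : Cube n) (η : Fin L → Finset (Fin n)) (h : Fin n → Fin c → Bool)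
    (b : Fin L → Fin c → Bool) : xo (gq y η h b) s = gq (xo y s) η h b := by
  rw [gq_xo, gq_xo (xo y s)]
  funext i
  simp only [xo]
  cases y i <;> cases s i <;> cases gq (fun _ => false) η h b i <;> rfl

/-- The generator fools all products of unimodular weights of the monomials in the literals given by
any string `s`. -/
theorem gx_sh (r : ℕ) {ε : ℝ} (hε : 0 < ε) : ∃ E G, NG E G ∧ ∃ n₀ : ℕ, ∀ n ≥ n₀,
    ∀ (M : Finset (Finset (Fin n))) (ζ : Finset (Fin n) → ℂ) (s : Cube n), Rd r M →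
      (∀ m ∈ M, ‖ζ m‖ = 1) →
      ‖na (2 ^ E n) (fun p => pr ζ M (xo (out G n p) s)) - av (pr ζ M)‖ ≤ ε := by
  classical
  obtain ⟨c, C₁, n₁, t, ht, hcore⟩ := core r (show 0 < ε / 8 by positivity)
  obtain ⟨C₂, n₂, hone⟩ := bb_one r (2 * t) (show 0 < ε / 4 by positivity)
  obtain ⟨K, hK⟩ : ∃ K : ℕ, K = C₁ + C₂ + 14 := ⟨_, rfl⟩
  obtain ⟨E, G, hG, hgen⟩ := qgen r c K
  obtain ⟨a, ha⟩ : ∃ a : ℝ, a = 16 * 4 ^ r := ⟨_, rfl⟩
  have ha0 : 0 ≤ a := by rw [ha]; positivity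
  obtain ⟨n₀, hn₀⟩ := exists_nat_gt (a + a * C₁ + a * (4 * ((r : ℝ) + 1) ^ 2) +
    (8 * r * (1 + a)) / ε)
  refine ⟨E, G, hG, max (max n₁ n₂) (max n₀ 1), fun n hn M ζ s₀ hM hζ => ?_⟩
  have hn1 : n₁ ≤ n := (le_max_left _ _).trans ((le_max_left _ _).trans hn)
  have hn2 : n₂ ≤ n := (le_max_right _ _).trans ((le_max_left _ _).trans hn)
  have hn0 : n₀ ≤ n := (le_max_left _ _).trans ((le_max_right _ _).trans hn)
  have hn3 : 1 ≤ n := (le_max_right _ _).trans ((le_max_right _ _).trans hn)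
  have hnn : (n₀ : ℝ) ≤ n := by exact_mod_cast hn0
  have hnr : (1 : ℝ) ≤ n := by exact_mod_cast hn3
  have hC₁0 : (0 : ℝ) ≤ C₁ := Nat.cast_nonneg _
  have hr0 : (0 : ℝ) ≤ r := Nat.cast_nonneg _
  have hbig := hn₀.le.trans hnn
  have g1 : (0 : ℝ) ≤ a * C₁ := by positivity
  have g2 : (0 : ℝ) ≤ a * (4 * ((r : ℝ) + 1) ^ 2) := by positivity
  have g3 : (0 : ℝ) ≤ (8 * r * (1 + a)) / ε := by positivity
  -- the widths and the errors
  obtain ⟨W, hW⟩ : ∃ W : ℕ, W = 2 * Nat.clog 2 n := ⟨_, rfl⟩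
  obtain ⟨δ, hδ⟩ : ∃ δ : ℝ, δ = 2 ^ (2 * (W + r)) / ((n : ℝ) + 1) ^ K := ⟨_, rfl⟩
  have hδ0 : 0 ≤ δ := by rw [hδ]; positivity
  have hδ' : 1 / ((n : ℝ) + 1) ^ K ≤ δ := by
    rw [hδ]
    exact div_le_div_of_nonneg_right (one_le_pow₀ (by norm_num)) (by positivity)
  have hδ2 : δ = 2 ^ (2 * (2 * Nat.clog 2 n + r)) / ((n : ℝ) + 1) ^ K := by rw [hδ, hW]
  have e1 : δ * (n : ℝ) ^ C₂ ≤ 1 := by
    have h1 := yma_err n r C₂ K (by omega) zero_le_one (X := (n : ℝ) ^ C₂) (by positivity)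
      (by rw [one_mul]; exact pow_le_pow_left₀ (by linarith) (by linarith) _)
    rw [← hδ2, ← ha, mul_one] at h1
    refine h1.trans ?_
    rw [div_le_one (by linarith)]
    linarith
  have e2 : C₁ * δ * (n : ℝ) ^ C₁ ≤ 1 := by
    have h1 := yma_err n r C₁ K (by omega) hC₁0 (X := C₁ * (n : ℝ) ^ C₁) (by positivity)
      (mul_le_mul_of_nonneg_left (pow_le_pow_left₀ (by linarith) (by linarith) _) hC₁0)
    rw [← hδ2, ← ha] at h1
    calc C₁ * δ * (n : ℝ) ^ C₁ = δ * (C₁ * (n : ℝ) ^ C₁) := by ring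
      _ ≤ a * C₁ / ((n : ℝ) + 1) := h1
      _ ≤ 1 := by
        rw [div_le_one (by linarith)]
        linarith
  have e3 : ∀ N : ℕ, N ≤ r * n → δ * ((N : ℝ) + 1) ^ 2 * ((W : ℝ) + 1) ^ 2 ≤ 1 := by
    intro N hN
    have hN' : (N : ℝ) ≤ r * n := by exact_mod_cast hN
    have hN0 : (0 : ℝ) ≤ N := Nat.cast_nonneg _
    have hW0 : (0 : ℝ) ≤ W := Nat.cast_nonneg _
    have hW' : (W : ℝ) ≤ 2 * n := by
      rw [hW]
      exact_mod_cast Nat.mul_le_mul_left 2 (yma_clog_le n)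
    have h2 : ((N : ℝ) + 1) ^ 2 ≤ (((r : ℝ) + 1) * ((n : ℝ) + 1)) ^ 2 :=
      pow_le_pow_left₀ (by linarith) (by nlinarith) 2
    have h3 : ((W : ℝ) + 1) ^ 2 ≤ (2 * ((n : ℝ) + 1)) ^ 2 :=
      pow_le_pow_left₀ (by linarith) (by linarith) 2
    have h1 := yma_err n r 4 K (by omega) (show (0 : ℝ) ≤ 4 * ((r : ℝ) + 1) ^ 2 by positivity)
      (X := ((N : ℝ) + 1) ^ 2 * ((W : ℝ) + 1) ^ 2) (by positivity) (by
        calc ((N : ℝ) + 1) ^ 2 * ((W : ℝ) + 1) ^ 2 ≤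
              (((r : ℝ) + 1) * ((n : ℝ) + 1)) ^ 2 * (2 * ((n : ℝ) + 1)) ^ 2 :=
              mul_le_mul h2 h3 (by positivity) (by positivity)
          _ = 4 * ((r : ℝ) + 1) ^ 2 * ((n : ℝ) + 1) ^ 4 := by ring)
    rw [← hδ2, ← ha] at h1
    calc δ * ((N : ℝ) + 1) ^ 2 * ((W : ℝ) + 1) ^ 2 =
          δ * (((N : ℝ) + 1) ^ 2 * ((W : ℝ) + 1) ^ 2) := by ring
      _ ≤ a * (4 * ((r : ℝ) + 1) ^ 2) / ((n : ℝ) + 1) := h1
      _ ≤ 1 := by
        rw [div_le_one (by linarith)]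
        linarith
  have e4 : ∀ N : ℕ, N ≤ r * n → 2 * (N : ℝ) * ((1 / 2) ^ W + δ) ≤ ε / 4 := by
    intro N hN
    have hN' : (N : ℝ) ≤ r * n := by exact_mod_cast hN
    have h1 : ((1 : ℝ) / 2) ^ W ≤ 1 / n ^ 2 := by
      have h2 : ((1 : ℝ) / 2) ^ W = 1 / ((2 : ℝ) ^ Nat.clog 2 n) ^ 2 := by
        rw [hW, one_div_pow, mul_comm 2 (Nat.clog 2 n), pow_mul]
      rw [h2]
      apply one_div_le_one_div_of_le (by positivity)
      exact pow_le_pow_left₀ (by linarith) (yma_clog' n) 2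
    have h3 : δ ≤ a / n ^ 2 := by
      have h4 := yma_err n r 1 K (by omega) zero_le_one (X := (n : ℝ)) (by linarith)
        (by rw [one_mul, pow_one]; linarith)
      rw [← hδ2, ← ha, mul_one] at h4
      rw [le_div_iff₀ (by positivity)]
      have h5 : δ * n * (n : ℝ) ≤ a / ((n : ℝ) + 1) * n :=
        mul_le_mul_of_nonneg_right h4 (by linarith)
      have h6 : a / ((n : ℝ) + 1) * n ≤ a := by
        rw [div_mul_eq_mul_div, div_le_iff₀ (by linarith)]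
        nlinarith
      calc δ * (n : ℝ) ^ 2 = δ * n * n := by ring
        _ ≤ a := h5.trans h6
    have h7 : (8 * r * (1 + a)) ≤ ε * n := by
      have h8 : (8 * r * (1 + a)) / ε ≤ n := by linarith
      rw [div_le_iff₀ hε] at h8
      linarith
    calc 2 * (N : ℝ) * ((1 / 2) ^ W + δ) ≤ 2 * (r * n) * (1 / n ^ 2 + a / n ^ 2) := by
          refine mul_le_mul (by linarith) (add_le_add h1 h3) (by positivity) (by positivity)
      _ = 2 * r * (1 + a) / n := by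
          field_simp
      _ ≤ ε / 4 := by
          rw [div_le_div_iff₀ (by linarith) (by norm_num)]
          linarith
  -- the generator
  obtain ⟨M₁, M₂, M₃, hM₁, hM₂, hM₃, Y₀, η, H, hY₀, hη, hH, hf⟩ := hgen n
  obtain ⟨Y, hYe⟩ : ∃ Y : Fin M₁ → Cube n, Y = fun ω => xo (Y₀ ω) s₀ := ⟨_, rfl⟩
  have : Nonempty (Fin M₁) := ⟨⟨0, hM₁⟩⟩
  have : Nonempty (Fin M₂) := ⟨⟨0, hM₂⟩⟩
  have : Nonempty (Fin M₃) := ⟨⟨0, hM₃⟩⟩
  have hY' : Bias δ Y := by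
    rw [hYe]
    exact (Bias.mono hY₀ hδ').xo s₀
  have hU : Bias δ (fun x : Cube n => x) := Bias.mono Bias.unif hδ0
  have hH' : Hs ((1 / 2) ^ c + δ) H := fun Q hQ => (hH Q hQ).trans (by linarith)
  have hf' : na (2 ^ E n) (fun p => pr ζ M (xo (out G n p) s₀)) = Pq Y η H (pr ζ M) := by
    have h1 := hf fun x => pr ζ M (xo x s₀)
    refine h1.trans ?_
    rw [hYe]
    unfold Pq
    simp only [gs_gq]
  rw [hf']
  -- the empty monomial
  obtain ⟨P, hP⟩ : ∃ P, P = M.filter fun m => m ≠ ∅ := ⟨_, rfl⟩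
  obtain ⟨κ, hκ⟩ : ∃ κ, κ = pr ζ (M.filter fun m => ¬ m ≠ ∅) (fun _ => false) := ⟨_, rfl⟩
  have hκ1 : ‖κ‖ = 1 := by
    rw [hκ]
    exact yma_norm_pr (fun m hm => hζ m (Finset.mem_filter.1 hm).1) _
  have hpr : pr ζ M = fun x => κ * pr ζ P x := by
    funext x
    rw [hκ, hP]
    exact yma_split ζ M x
  have hPs : P ⊆ M := by rw [hP]; exact Finset.filter_subset _ _
  have hPζ : ∀ m ∈ P, ‖ζ m‖ = 1 := fun m hm => hζ m (hPs hm)
  have hPr : Rd r P := yma_rd hM hPs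
  have hP0 : ∀ m ∈ P, m ≠ ∅ := fun m hm => by
    rw [hP] at hm
    exact (Finset.mem_filter.1 hm).2
  have hPc := yma_card hP0 hPr
  rw [hpr, pq_mul, yma_av_mul_left, ← mul_sub, norm_mul, hκ1, one_mul]
  -- the wide monomials
  obtain ⟨N, hN⟩ : ∃ N, N = P.filter fun m => m.card ≤ W := ⟨_, rfl⟩
  have hNs : N ⊆ P := by rw [hN]; exact Finset.filter_subset _ _
  have hNζ : ∀ m ∈ N, ‖ζ m‖ = 1 := fun m hm => hPζ m (hNs hm)
  have hNr : Rd r N := yma_rd hPr hNs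
  have hN0 : ∀ m ∈ N, m ≠ ∅ := fun m hm => hP0 m (hNs hm)
  have hNw : ∀ m ∈ N, m.card ≤ W := fun m hm => by
    rw [hN] at hm
    exact (Finset.mem_filter.1 hm).2
  have hNc := yma_card hN0 hNr
  have d1 : ‖Pq Y η H (pr ζ P) - Pq Y η H (pr ζ N)‖ ≤ ε / 4 := by
    refine (pq_close Y η H fun s => ?_).trans (e4 _ hPc)
    rw [hN]
    exact cut' hPζ (fun ω => xo (Y ω) s) hδ0 (hY'.xo s)
  have d2 : ‖av (pr ζ P) - av (pr ζ N)‖ ≤ ε / 4 := by
    refine le_trans ?_ (e4 _ hPc)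
    rw [hN]
    exact cut' hPζ (fun x : Cube n => x) hδ0 hU
  -- the narrow monomials
  have hgap0 : ∀ m ∈ N, 0 ≤ gap ζ m := fun m _ => by unfold gap; positivity
  have hgap1 : ∀ m ∈ N, gap ζ m ≤ 1 := by
    intro m hm
    have h1 : ‖1 - ζ m‖ ≤ 2 := by
      calc ‖1 - ζ m‖ ≤ ‖(1 : ℂ)‖ + ‖ζ m‖ := norm_sub_le _ _
        _ = 2 := by rw [hNζ m hm, norm_one]; norm_num
    unfold gap
    have h2 := norm_nonneg (1 - ζ m)
    nlinarith
  have d3 : ‖Pq Y η H (pr ζ N) - av (pr ζ N)‖ ≤ ε / 4 := by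
    rcases le_or_gt (mw (1 / 2) (gap ζ) N) t with hm | hm
    · refine pq_const Y η H fun s => ?_
      refine hone n hn2 N ζ hN0 hNr hNζ ?_ (fun ω => xo (Y ω) s) δ hδ0 e1 (hY'.xo s)
      exact (sum_le_mw hN0 hgap0).trans (by linarith)
    · have hL : N.card ≤ 2 ^ (Nat.clog 2 n + r + 1) := by
        have h1 : n ≤ 2 ^ Nat.clog 2 n := Nat.le_pow_clog one_lt_two n
        have h2 : r ≤ 2 ^ r := Nat.lt_two_pow_self.le
        calc N.card ≤ r * n := hNc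
          _ ≤ 2 ^ r * 2 ^ Nat.clog 2 n := Nat.mul_le_mul h2 h1
          _ = 2 ^ (Nat.clog 2 n + r) := by rw [pow_add, mul_comm]
          _ ≤ 2 ^ (Nat.clog 2 n + r + 1) := Nat.pow_le_pow_right (by norm_num) (by omega)
      obtain ⟨l, hl, hl1, hl2⟩ := level ht hgap0 hgap1 hL hm
      have hp0 : (0 : ℝ) ≤ (1 / 2) ^ (l + 1) := by positivity
      have hp1 : (1 / 2 : ℝ) ^ (l + 1) ≤ 1 / 2 := by
        calc (1 / 2 : ℝ) ^ (l + 1) ≤ (1 / 2) ^ 1 :=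
              pow_le_pow_of_le_one (by norm_num) (by norm_num) (by omega)
          _ = 1 / 2 := pow_one _
      have hmiss : Miss (2 * (W + r)) ((1 / 2 : ℝ) ^ (l + 1)) δ (η ⟨l, hl⟩) := by
        rw [hδ]
        exact hη ⟨l, hl⟩ (2 * (W + r))
      have hfam : Fam r W N := ⟨hN0, hNr, hNw⟩
      have k1 : ‖Pq Y η H (pr ζ N)‖ ≤ ε / 8 :=
        pq_level Y η H ⟨l, hl⟩ fun sh => hcore n hn1 W N ζ hfam hNζ _ δ hp0 hp1 hl1 hl2 hδ0 e2
          (e3 _ hNc) Y (η ⟨l, hl⟩) H sh hY' hmiss hH'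
      have k2 : ‖av (pr ζ N)‖ ≤ ε / 8 := by
        have h1 := hcore n hn1 W N ζ hfam hNζ _ δ hp0 hp1 hl1 hl2 hδ0 e2
          (e3 _ hNc) (fun x : Cube n => x) (η ⟨l, hl⟩) H (fun _ _ _ => false) hU hmiss hH'
        have h2 : (av fun ω₂ : Fin M₂ => av fun ω₃ : Fin M₃ => av fun x : Cube n =>
            av fun b : Fin c → Bool =>
            pr ζ N (mq (xo x fun _ => false) (η ⟨l, hl⟩ ω₂) (uv b (H ω₃)))) = av (pr ζ N) := by
          have h3 : ∀ (ω₂ : Fin M₂) (ω₃ : Fin M₃), (av fun x : Cube n => av fun b : Fin c → Bool =>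
              pr ζ N (mq (xo x fun _ => false) (η ⟨l, hl⟩ ω₂) (uv b (H ω₃)))) = av (pr ζ N) := by
            intro ω₂ ω₃
            rw [av_comm]
            simp only [yma_unif]
            exact yma_av_const _
          simp only [h3]
          rw [yma_av_const, yma_av_const]
        rw [h2] at h1
        exact h1
      calc ‖Pq Y η H (pr ζ N) - av (pr ζ N)‖ ≤ ‖Pq Y η H (pr ζ N)‖ + ‖av (pr ζ N)‖ :=
            norm_sub_le _ _
        _ ≤ ε / 4 := by linarith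
  calc ‖Pq Y η H (pr ζ P) - av (pr ζ P)‖
      = ‖(Pq Y η H (pr ζ P) - Pq Y η H (pr ζ N)) + (Pq Y η H (pr ζ N) - av (pr ζ N)) -
          (av (pr ζ P) - av (pr ζ N))‖ := by
        congr 1
        ring
    _ ≤ ‖(Pq Y η H (pr ζ P) - Pq Y η H (pr ζ N)) + (Pq Y η H (pr ζ N) - av (pr ζ N))‖ +
          ‖av (pr ζ P) - av (pr ζ N)‖ := norm_sub_le _ _
    _ ≤ (‖Pq Y η H (pr ζ P) - Pq Y η H (pr ζ N)‖ + ‖Pq Y η H (pr ζ N) - av (pr ζ N)‖) +
          ‖av (pr ζ P) - av (pr ζ N)‖ := add_le_add (norm_add_le _ _) le_rfl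
    _ ≤ ε := by linarith

end Pool.Agent.MP_ca1109_lc.Xw
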