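import Pool.Agent.MP_ca1109_lc.Xv.FU
import Pool.Agent.MP_ca1109_lc.Xw.FA0
import Pool.Agent.MP_ca1109_lc.Xw.SA
import Pool.Agent.MP_ca1109_lc.Xw.GS
import Pool.Agent.MP_ca1109_lc.Xw.Test

/-!
# Boolean functions of modular gates, gates over arbitrary groups and thresholds: the theorem
-/

namespace Pool.Agent.MP_ca1109_lc.Xw

open Finset Pool.Agent.H66 Pool.Agent.MP_ca1109_lc.Mpg Pool.Agent.MP_ca1109_lc.Agp
open Pool.Agent.MP_ca1109_lc.Dnf (Cube one one_le one_nonneg one_true one_false Term)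
open Pool.Agent.MP_ca1109_lc.Xp (xo)
open Pool.Agent.MP_ca1109_lc.Xl (Rd)
open Pool.Agent.MP_ca1109_lc.Xa (PB PC FP Gt fp_eventually fp_avg_fin)
open Pool.Agent.MP_ca1109_lc.Pb (At tt)
open Pool.Agent.MP_ca1109_lc.Xv (vio fv_gen fv_gate ysh ysh_tr)

variable {n : ℕ}

/-! ## The sum of two strings -/

theorem FP.add {U : Submonoid (Cube n → ℂ)} {r q : ℕ} {K V ε : ℝ}
    (hU : ∀ u ∈ U, ∀ s : Cube n, (fun x => u (Xp.xo x s)) ∈ U) {Ω₁ Ω₂ : Type*} [Fintype Ω₁]
    [Fintype Ω₂] [Nonempty Ω₂] {X : Ω₁ → Cube n} (Y : Ω₂ → Cube n) (h : FP U r q K V ε X)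
    {f : Cube n → ℂ} (hf : PB U r q K V f) :
    ‖(av fun ω₁ => av fun ω₂ => f (xo (X ω₁) (Y ω₂))) - av f‖ ≤ ε := by
  rw [xfa_av_comm]
  refine xfa_av_le fun ω₂ => ?_
  have h1 := h _ (PB.xo hU hf (Y ω₂))
  rwa [Xp.av_xo] at h1

theorem FM.add {r : ℕ} {ε : ℝ} {Ω₁ Ω₂ : Type*} [Fintype Ω₁] [Nonempty Ω₁] [Fintype Ω₂]
    (X : Ω₁ → Cube n) {Y : Ω₂ → Cube n} (h : FM r ε Y) (M : Finset (Finset (Fin n)))
    (ζ : Finset (Fin n) → ℂ) (s : Cube n) (hM : Xp.Rd r M) (hζ : ∀ m ∈ M, ‖ζ m‖ = 1) :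
    ‖(av fun ω₁ => av fun ω₂ => Xp.pr ζ M (xo (xo (X ω₁) (Y ω₂)) s)) - av (Xp.pr ζ M)‖ ≤ ε := by
  refine xfa_av_le fun ω₁ => ?_
  have h1 := h M ζ (xo (X ω₁) s) hM hζ
  have e : ∀ ω₂, xo (xo (X ω₁) (Y ω₂)) s = xo (Y ω₂) (xo (X ω₁) s) := by
    intro ω₂
    funext i
    show xor (xor (X ω₁ i) (Y ω₂ i)) (s i) = xor (Y ω₂ i) (xor (X ω₁ i) (s i))
    cases X ω₁ i <;> cases Y ω₂ i <;> cases s i <;> rfl
  simp only [e]
  exact h1

/-- The generator fools all products. -/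
theorem fa_gen (a d r q : ℕ) (K V : ℝ) {ε : ℝ} (hq : 0 < q) (hε : 0 < ε) : ∃ E G, NG E G ∧
    ∃ n₀ : ℕ, ∀ n ≥ n₀, FP (vio a d n) r q K V ε (fun p : Fin (2 ^ E n) => out G n p) ∧
      FM r ε (fun p : Fin (2 ^ E n) => out G n p) := by
  obtain ⟨E₁, G₁, h₁, n₁, H₁⟩ := fv_gen a d r q K V hq hε
  obtain ⟨E₂, G₂, h₂, n₂, H₂⟩ := gx_sh r hε
  refine ⟨_, _, h₁.xor h₂, max n₁ n₂, fun n hn => ?_⟩
  have hn1 : n₁ ≤ n := (le_max_left _ _).trans hn
  have hn2 : n₂ ≤ n := (le_max_right _ _).trans hn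
  have hN1 : Nonempty (Fin (2 ^ E₁ n)) := ⟨⟨0, by positivity⟩⟩
  have hN2 : Nonempty (Fin (2 ^ E₂ n)) := ⟨⟨0, by positivity⟩⟩
  have hB : 0 < 2 ^ E₂ n := by positivity
  have key : ∀ f : Cube n → ℂ, av (fun p : Fin (2 ^ (E₁ n + E₂ n)) =>
      f (out (xorG E₂ G₁ G₂) n p)) = av fun p₁ : Fin (2 ^ E₁ n) => av fun p₂ : Fin (2 ^ E₂ n) =>
        f (xo (out G₁ n p₁) (out G₂ n p₂)) := by
    intro f
    rw [av_fin (2 ^ (E₁ n + E₂ n)) fun p => f (out (xorG E₂ G₁ G₂) n p), pow_add]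
    have h6 : na (2 ^ E₁ n * 2 ^ E₂ n) (fun p => f (out (xorG E₂ G₁ G₂) n p)) =
        na (2 ^ E₁ n) (fun p => na (2 ^ E₂ n) fun p' =>
          f (xo (out G₁ n p) (out G₂ n p'))) := by
      rw [← na_mul (2 ^ E₁ n) hB fun p p' => f (xo (out G₁ n p) (out G₂ n p'))]
      exact na_congr fun p _ => rfl
    rw [h6, ← av_fin]
    congr 1
    funext p
    exact (av_fin (2 ^ E₂ n) fun p' => f (xo (out G₁ n p) (out G₂ n p'))).symm
  constructor
  · intro f hf
    have e := key f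
    rw [show (av fun ω : Fin (2 ^ (E₁ n + E₂ n)) => f (out (xorG E₂ G₁ G₂) n ω)) = _ from e]
    exact FP.add (vio_xo a d) (fun p : Fin (2 ^ E₂ n) => out G₂ n p) (H₁ n hn1) hf
  · intro M ζ s hM hζ
    have e := key fun x => Xp.pr ζ M (xo x s)
    rw [show (av fun ω : Fin (2 ^ (E₁ n + E₂ n)) =>
      Xp.pr ζ M (xo (out (xorG E₂ G₁ G₂) n ω) s)) = _ from e]
    refine FM.add (fun p : Fin (2 ^ E₁ n) => out G₁ n p) (Y := fun p : Fin (2 ^ E₂ n) =>
      out G₂ n p) (fun M ζ s hM hζ => ?_) M ζ s hM hζ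
    rw [av_fin (2 ^ E₂ n) fun p => Xp.pr ζ M (xo (out G₂ n p) s)]
    exact H₂ n hn2 M ζ s hM hζ

/-! ## The gates -/

theorem litSum_eq {Γ : Type*} [AddCommMonoid Γ] {N : ℕ} (S : Fin N → Finset (Fin n))
    (y : Fin N → Fin n → Bool) (c : Fin N → Γ) : litSum S y c = Xu.litSum S y c := rfl

/-- Sums over monomials in the literals given by one string. -/
theorem fa_vm {G : Type} [AddCommGroup G] {N : ℕ} (S : Fin N → Finset (Fin n))
    (y : Fin N → Fin n → Bool) (c : Fin N → G) (s : Fin n → Bool) (hs : ∀ m, y m = s)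
    (x : Cube n) : Xv.lsn S y c x =
      vm (fun A => ∑ j ∈ univ.filter (fun j => S j = A), c j)
        ((univ.image S).filter fun m => m ≠ ∅) (xo x fun i => !(s i)) := by
  classical
  unfold Xv.lsn vm
  have h2 : ∀ j, (∀ i ∈ S j, x i = y j i) ↔ Xp.Tr (S j) (xo x fun i => !(s i)) := by
    intro j
    unfold Xp.Tr xo
    refine forall_congr' fun i => forall_congr' fun _ => ?_
    rw [hs j]
    show x i = s i ↔ xor (x i) (!(s i)) = true
    cases x i <;> cases s i <;> decide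
  have h1 : ∀ A ∈ (univ.image S).filter (fun m => m ≠ ∅),
      (if Xp.Tr A (xo x fun i => !(s i)) then ∑ j ∈ univ.filter (fun j => S j = A), c j else 0) =
      ∑ j ∈ (univ.filter fun j => S j ≠ ∅).filter (fun j => S j = A),
        if ∀ i ∈ S j, x i = y j i then c j else 0 := by
    intro A hA
    have hA0 : A ≠ ∅ := (mem_filter.1 hA).2
    have e : (univ.filter fun j => S j ≠ ∅).filter (fun j => S j = A) =
        univ.filter (fun j => S j = A) := by
      ext j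
      simp only [mem_filter, mem_univ, true_and]
      constructor
      · exact fun h => h.2
      · intro h
        refine ⟨?_, h⟩
        rw [h]
        exact hA0
    rw [e]
    by_cases h : Xp.Tr A (xo x fun i => !(s i))
    · rw [if_pos h]
      refine sum_congr rfl fun j hj => ?_
      rw [if_pos ((h2 j).2 (by rw [(mem_filter.1 hj).2]; exact h))]
    · rw [if_neg h]
      refine (sum_eq_zero fun j hj => ?_).symm
      rw [if_neg]
      intro h3
      refine h ?_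
      have h4 := (h2 j).1 h3
      rwa [(mem_filter.1 hj).2] at h4
  rw [sum_congr rfl h1]
  refine (sum_fiberwise_of_maps_to (s := univ.filter fun j => S j ≠ ∅)
    (t := (univ.image S).filter fun m => m ≠ ∅) (g := S) (fun j hj => ?_)
    fun j => if ∀ i ∈ S j, x i = y j i then c j else 0).symm
  exact mem_filter.2 ⟨mem_image_of_mem S (mem_univ j), (mem_filter.1 hj).2⟩

/-- The gates of the class are gates in the sense of `Gt` or `Ga`. -/
theorem fa_gate {q d r B : ℕ} {g : Cube n → Bool} (hg : Gate q d r B g) :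
    Gt (vio q d n) r q B g ∨ Ga r B g := by
  classical
  obtain ⟨N, S, y, hg⟩ := hg
  rcases hg with hg | hg | hg | hg
  · exact Or.inl (fv_gate ⟨N, S, y, Or.inl hg⟩)
  · refine Or.inr ?_
    obtain ⟨G, i1, i2, c, A, s, hs, hA, hr, hgx⟩ := hg
    have i3 : Fintype G := Fintype.ofFinite G
    obtain ⟨κ, hκ⟩ := Xv.litSum_lsn S y c
    refine ⟨G, i1, i3, (univ.image S).filter fun m => m ≠ ∅,
      fun A => ∑ j ∈ univ.filter (fun j => S j = A), c j, A.image fun a => a - κ,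
      fun i => !(s i), fun i => ?_, fun m hm => (mem_filter.1 hm).2, card_image_le.trans hA,
      fun x => ?_⟩
    · refine le_trans ?_ (hr i)
      have h1 : (((univ.image S).filter fun m => m ≠ ∅).filter fun m => i ∈ m) ⊆
          (univ.filter fun j => i ∈ S j).image S := by
        intro m hm
        rw [mem_filter, mem_filter, mem_image] at hm
        obtain ⟨⟨⟨j, _, rfl⟩, _⟩, hi⟩ := hm
        exact mem_image_of_mem S (mem_filter.2 ⟨mem_univ j, hi⟩)
      refine (card_le_card h1).trans (card_image_le.trans (le_of_eq ?_))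
      rw [← Set.ncard_coe_finset]
      congr 1
      ext m
      simp
    · rw [hgx, litSum_eq, hκ, fa_vm S y c s hs, mem_image]
      constructor
      · intro h
        exact ⟨_, h, by abel⟩
      · rintro ⟨a, ha, he⟩
        rw [← he, add_sub_cancel]
        exact ha
  · exact Or.inl (fv_gate ⟨N, S, y, Or.inr (Or.inl hg)⟩)
  · exact Or.inl (fv_gate ⟨N, S, y, Or.inr (Or.inr hg)⟩)

/-- The theorem. -/
theorem final_groups (q d r B k : ℕ) (hq : 0 < q) {ε : ℝ} (hε : 0 < ε) :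
    LogGen (GateTest q d r B k) ε := by
  classical
  obtain ⟨R, Q, K, V, ε₀, hQ, _, _, hε₀, H⟩ := str_ga r q B k hq hε
  obtain ⟨E, G, hNG, n₀, HG⟩ := fa_gen q d R Q K V hQ hε₀
  refine fp_eventually (𝒯 := fun n f => n₀ ≤ n ∧ GateTest q d r B k n f)
    (logGen_of hNG fun n T hT => ?_) n₀ fun n hn T hT => ⟨hn, hT⟩
  obtain ⟨hn, g, F, hgate, hT⟩ := hT
  have hne : Nonempty (Fin (2 ^ E n)) := ⟨⟨0, by positivity⟩⟩
  have key := H n (vio q d n) g F (fun j => fa_gate (hgate j))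
    (fun p : Fin (2 ^ E n) => out G n p) (HG n hn).1 (HG n hn).2
  have e1 : nr (2 ^ E n) (fun p => ind (T (out G n p))) =
      avg fun p : Fin (2 ^ E n) => ind (F fun j => g j (out G n p)) := by
    rw [← fp_avg_fin]
    congr 1
    funext p
    rw [hT]
  have e2 : prob T = avg fun x : Cube n => ind (F fun j => g j x) := by
    rw [prob_eq_avg]
    congr 1
    funext x
    rw [hT]
  rw [e1, e2]
  exact key

end Pool.Agent.MP_ca1109_lc.Xw
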