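import Pool.Agent.MP_ca1109_lc.Xu.Part
import Pool.Agent.MP_ca1109_lc.Xw.Test

/-!
# Partitions into subcubes with functions of gates: the class
-/

namespace Pool.Agent.MP_ca1109_lc.Xw

/-- On each of at most `n ^ h` subcubes which partition the cube, `f` is an arbitrary Boolean function
of `k` gates. -/
def PartTest (q d r B k h n : ℕ) (f : (Fin n → Bool) → Bool) : Prop :=
  Xu.Part (GateTest q d r B k n) (n ^ h) f

end Pool.Agent.MP_ca1109_lc.Xw
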