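import Pool.Agent.MP_ca1109_lc.Xw.FW0
import Pool.Agent.MP_ca1109_lc.Xd.BG
import Pool.Agent.MP_ca1109_lc.Xd.MX
import Pool.Agent.MP_ca1109_lc.Xw.AG3
import Pool.Agent.MP_ca1109_lc.Xw.FA
import Pool.Agent.MP_ca1109_lc.Xw.Part

/-!
# Functions of gates on the subcubes of a partition, with gates over arbitrary groups: the theorem
-/

namespace Pool.Agent.MP_ca1109_lc.Xw

open Finset Pool.Agent.H66 Pool.Agent.MP_ca1109_lc.Mpg Pool.Agent.MP_ca1109_lc.Agp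
open Pool.Agent.MP_ca1109_lc.Dnf (Cube one Term)
open Pool.Agent.MP_ca1109_lc.Xp (xo ma_norm_av ma_av_const)
open Pool.Agent.MP_ca1109_lc.Xl (Tr)
open Pool.Agent.MP_ca1109_lc.Xa (PB FP Gt)
open Pool.Agent.MP_ca1109_lc.Xv (vio)
open Pool.Agent.MP_ca1109_lc.Xd (lf Lf LFooled Big Mix gl_lf_xo cond fx rS rc rS_mem rS_card
  fx_mem fx_notMem fl_gen fl_norm ft_leaf ft_ofReal ft_unif LeafGen part_of big mix)

variable {n : ℕ}

/-! ## Shifts of the classes -/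

theorem sc_big (r : ℕ) (C : ℝ) (n : ℕ) : Sc (Big r C n) := by
  rintro f ⟨M, ζ, s, h1, h2, h3, h4, rfl⟩ t
  refine ⟨M, ζ, xo t s, h1, h2, h3, h4, ?_⟩
  funext x
  show Xp.pr ζ M (xo (xo x t) s) = _
  rw [fw_xo3]

theorem sc_mix (r Q : ℕ) (C : ℝ) (n : ℕ) : Sc (Mix r Q C n) := by
  rintro f ⟨M, N, ζ, s, h1, h2, h3, h4, h5, h6, rfl⟩ t
  refine ⟨M, N, ζ, xo t s, h1, h2, h3, h4, h5, h6, ?_⟩
  funext x
  show Xp.pr ζ M (xo (xo x t) s) = _
  rw [fw_xo3]

/-! ## Restricted gates -/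

theorem fw_litSum {Γ : Type*} [AddCommMonoid Γ] (L : Finset (Fin n)) (a : Fin n → Bool) {N : ℕ}
    (S : Fin N → Finset (Fin n)) (y : Fin N → Fin n → Bool) (c : Fin N → Γ) (x : Fin n → Bool) :
    litSum S y c (fx L a x) = litSum (rS L a S y) y (rc L a S y c) x :=
  Xd.litSum_fx L a S y c x

/-- Restricted gates. -/
theorem Gate.fx {q d r B : ℕ} {g : (Fin n → Bool) → Bool} (h : Gate q d r B g)
    (L : Finset (Fin n)) (a : Fin n → Bool) : Gate q d r B fun x => g (Xd.fx L a x) := by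
  obtain ⟨N, S, y, h⟩ := h
  refine ⟨N, rS L a S y, y, ?_⟩
  have hr' : ∀ {i : Fin n}, {m | i ∈ S m}.ncard ≤ r → {m | i ∈ rS L a S y m}.ncard ≤ r := by
    intro i hi
    refine (Set.ncard_le_ncard ?_ (Set.toFinite _)).trans hi
    intro m h1
    exact (rS_mem h1).2.1
  rcases h with ⟨G, i1, i2, c, A, hq, hA, hr, hg⟩ | ⟨G, i1, i2, c, A, s, hs, hA, hr, hg⟩ |
    ⟨w, θ, hw, hr, hg⟩ | ⟨w, θ, s, hs, hr, hg⟩
  · refine Or.inl ⟨G, i1, i2, rc L a S y c, A, hq, hA, fun i => ?_, fun x => ?_⟩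
    · refine (Set.ncard_le_ncard ?_ (Set.toFinite _)).trans (hr i)
      rintro m ⟨h1, h2⟩
      have h3 := rS_mem h1
      refine ⟨h3.2.1, ?_⟩
      rcases h2 with h2 | h2
      · exact Or.inl (h2.trans_le rS_card)
      · refine Or.inr ?_
        have h4 : rc L a S y c m = c m := if_pos h3.1
        rwa [h4] at h2
    · rw [hg, fw_litSum]
  · refine Or.inr (Or.inl ⟨G, i1, i2, rc L a S y c, A, s, hs, hA, fun i => hr' (hr i),
      fun x => ?_⟩)
    rw [hg, fw_litSum]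
  · refine Or.inr (Or.inr (Or.inl ⟨rc L a S y w, θ, fun m => ?_, fun i => hr' (hr i),
      fun x => ?_⟩))
    · unfold rc
      split_ifs
      · exact hw m
      · rw [abs_zero]
        exact Int.natCast_nonneg B
    · rw [hg, fw_litSum]
  · refine Or.inr (Or.inr (Or.inr ⟨rc L a S y w, θ, s, hs, fun i => hr' (hr i), fun x => ?_⟩))
    rw [hg, fw_litSum]

theorem GateTest.fx {q d r B k : ℕ} {f : (Fin n → Bool) → Bool} (h : GateTest q d r B k n f)
    (L : Finset (Fin n)) (a : Fin n → Bool) : GateTest q d r B k n fun x => f (Xd.fx L a x) := by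
  obtain ⟨g, F, hg, hf⟩ := h
  exact ⟨fun j x => g j (Xd.fx L a x), F, fun j => Gate.fx (hg j) L a, fun x => hf _⟩

/-! ## The theorem -/

/-- The functions of `k` gates at the leaves. -/
theorem leaf_gate (q d r B k e : ℕ) (hq : 0 < q) {ε : ℝ} (hε : 0 < ε) :
    LeafGen (GateTest q d r B k) e ε := by
  classical
  obtain ⟨R, Q, K, V, κ, ε₀, hQ, hK, hV, hκ, hε₀, HS⟩ := str_g3 r q B k hq
    (show 0 < ε / 2 by positivity)
  obtain ⟨ε₁, hε₁⟩ : ∃ ε₁ : ℝ, ε₁ = min (1 / 2) (min (ε₀ / 4) (ε / 2)) := ⟨_, rfl⟩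
  have hε₁0 : 0 < ε₁ := by
    rw [hε₁]
    exact lt_min (by norm_num) (lt_min (by positivity) (by positivity))
  have hε₁1 : ε₁ ≤ 1 / 2 := by rw [hε₁]; exact min_le_left _ _
  have hε₁2 : 4 * ε₁ ≤ ε₀ := by
    have h : ε₁ ≤ ε₀ / 4 := by rw [hε₁]; exact (min_le_right _ _).trans (min_le_left _ _)
    linarith
  have hε₁3 : ε₁ ≤ ε / 2 := by rw [hε₁]; exact (min_le_right _ _).trans (min_le_right _ _)
  obtain ⟨C, hC, hbig⟩ := big R e hε₁0
  obtain ⟨E, G, hNG, n₀, HG⟩ := fw_union (fun n => sc_pb q d R Q K V n)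
    (fun n => sc_union (sc_big R C n) (sc_mix R Q (κ * C) n))
    (fl_gen q d R Q e K V hQ hK hV hε₁0)
    (fw_union (fun n => sc_big R C n) (fun n => sc_mix R Q (κ * C) n) hbig
      (mix R Q e hQ (κ * C) hε₁0))
  refine ⟨E, G, hNG, n₀, fun n hn L a hL => ?_⟩
  have hne : Nonempty (Fin (2 ^ E n)) := ⟨⟨0, by positivity⟩⟩
  have hX := HG n hn
  obtain ⟨hP, Ω', i1, i2, X', hX', hlf⟩ := fw_cond (Or.inl (PB.one R Q hK hV)) hε₁0.le hε₁1 hX
    (fun f hf x => by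
      rcases hf with hf | ⟨M, ζ, s, h1, h2, h3, h4, rfl⟩ | ⟨M, N, ζ, s, h1, h2, h3, h4, h5, h6, rfl⟩
      · exact fl_norm hQ hf x
      · exact (xag_norm_pr h3 _).le
      · exact (xag_norm_pr h4 _).le) L hL a
  obtain ⟨D, hD⟩ : ∃ D : ℝ, D = (1 / 2) ^ L.card := ⟨_, rfl⟩
  have hD0 : 0 < D := by rw [hD]; positivity
  refine ⟨hP.trans (mul_le_mul_of_nonneg_right (by linarith) (by positivity)), fun f hf => ?_⟩
  obtain ⟨g, F, hg, hgF⟩ := GateTest.fx hf L a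
  have h1 := HS C hC n (vio q d n) g F (fun j => fa_gate (hg j)) X'
    (fun f hf => (hX' f (Or.inl hf)).trans hε₁2)
    (fun f hf => (hX' f (Or.inr hf)).trans hε₁2)
  simp only [← hgF] at h1
  have h2 := hlf (fun y => ((ind (f (Xd.fx L a y)) : ℝ) : ℂ))
  simp only [ft_leaf] at h2
  rw [ft_ofReal, ft_ofReal, ← Complex.ofReal_mul] at h2
  have h3 := Complex.ofReal_injective h2
  rw [h3, ft_unif]
  obtain ⟨P, hPd⟩ : ∃ P : ℝ, P = avg fun p : Fin (2 ^ E n) => one (Tr L a (out G n p)) :=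
    ⟨_, rfl⟩
  obtain ⟨A', hA'⟩ : ∃ A' : ℝ, A' = avg fun ω' : Ω' => ind (f (Xd.fx L a (X' ω'))) := ⟨_, rfl⟩
  obtain ⟨A, hA⟩ : ∃ A : ℝ, A = avg fun x : Cube n => ind (f (Xd.fx L a x)) := ⟨_, rfl⟩
  have hA0 : 0 ≤ A' := by
    rw [hA']
    exact avg_nonneg fun ω => by unfold ind; split_ifs <;> norm_num
  have hA1 : A' ≤ 1 := by
    rw [hA']
    refine (avg_mono (g := fun _ => (1 : ℝ)) fun ω => ?_).trans (le_of_eq (avg_const _))
    unfold ind
    split_ifs <;> norm_num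
  rw [← hPd, ← hA', ← hA, ← hD]
  rw [← hPd, ← hD] at hP
  rw [← hA', ← hA] at h1
  have h4 : P * A' - D * A = (P - D) * A' + D * (A' - A) := by ring
  rw [h4]
  refine (abs_add_le _ _).trans ?_
  rw [abs_mul, abs_mul, abs_of_nonneg hA0, abs_of_pos hD0]
  have h5 : |P - D| * A' ≤ ε / 2 * D := by
    calc |P - D| * A' ≤ |P - D| * 1 := mul_le_mul_of_nonneg_left hA1 (abs_nonneg _)
      _ ≤ ε₁ * D := by rw [mul_one]; exact hP
      _ ≤ ε / 2 * D := mul_le_mul_of_nonneg_right hε₁3 hD0.le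
  have h6 : D * |A' - A| ≤ D * (ε / 2) := mul_le_mul_of_nonneg_left h1 hD0.le
  linarith

/-- One explicit generator with logarithmic seeds fools all functions which, on each of at most
`n ^ h` subcubes which partition the cube, are functions of `k` gates. -/
theorem final_part (q d r B k h : ℕ) (hq : 0 < q) {ε : ℝ} (hε : 0 < ε) :
    LogGen (PartTest q d r B k h) ε :=
  part_of h (fun _ hε => leaf_gate q d r B k (h + 1) hq hε) hε

end Pool.Agent.MP_ca1109_lc.Xw
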